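import Pool.Agent.Q179.CR.Stm

/-!
# The chain of sub-cells
-/

set_option autoImplicit false

namespace Pool.Agent.Q179.CR

open Set Cardinal

universe u

variable {V : Type u}

theorem countable_finite_Iio (Λ : Type u) [LinearOrder Λ] :
    {ζ : Λ | (Iio ζ).Finite}.Countable := by
  have h : InjOn (fun ζ : Λ => (Iio ζ).ncard) {ζ : Λ | (Iio ζ).Finite} := by
    intro a ha b hb hab
    by_contra hne
    rcases lt_or_gt_of_ne hne with h | h
    · have := ncard_lt_ncard (s := Iio a) (t := Iio b)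
        ⟨Iio_subset_Iio h.le, fun h' => lt_irrefl _ (h' (mem_Iio.2 h))⟩ hb
      exact absurd hab this.ne
    · have := ncard_lt_ncard (s := Iio b) (t := Iio a)
        ⟨Iio_subset_Iio h.le, fun h' => lt_irrefl _ (h' (mem_Iio.2 h))⟩ ha
      exact absurd hab this.ne'
  exact Set.countable_iff_exists_injOn.2 ⟨_, h⟩

theorem mk_iUnion_le_of {ι : Type u} {f : ι → Set V} {μ : Cardinal.{u}} (hμ : ℵ₀ ≤ μ)
    (h1 : #ι ≤ μ) (h2 : ∀ i, #(f i) ≤ μ) : #(⋃ i, f i) ≤ μ := by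
  refine (mk_iUnion_le f).trans ?_
  calc #ι * ⨆ i, #(f i) ≤ μ * μ := mul_le_mul' h1 (ciSup_le' h2)
    _ = μ := mul_eq_self hμ

/-- the union of subsingletons -/
theorem mk_iUnion_le_index {ι : Type u} {f : ι → Set V} (h : ∀ i, (f i).Subsingleton) :
    #(⋃ i, f i) ≤ #ι := by
  have : ∀ v : (⋃ i, f i : Set V), ∃ i, v.1 ∈ f i := fun v => mem_iUnion.1 v.2
  choose g hg using this
  refine mk_le_of_injective (f := g) ?_
  intro v w hvw
  have h1 := hg w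
  rw [← hvw] at h1
  exact Subtype.ext (h _ (hg v) h1)

/-- `U` meets all finite sets in `Y` of the type `t` over `A`. -/
def Blocks {𝒯 : Type} (Y : Set V) (tp : Finset V → Finset V → 𝒯) (A : Finset V) (t : 𝒯)
    (U : Set V) : Prop :=
  ∀ W : Finset V, (↑W : Set V) ⊆ Y → W.Nonempty → tp A W = t → ∃ w ∈ W, w ∈ U

theorem exists_P (hE : S_ENUMSET.{u}) {𝒯 : Type} (Y : Set V) (tp : Finset V → Finset V → 𝒯)
    (κ : Cardinal.{u}) (hκ : ℵ₀ < κ) (A : Finset V) (t : 𝒯) :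
    ∃ P : κ.ord.ToType → Set V, (∀ ζ, (P ζ).Subsingleton) ∧ ∀ η : κ.ord.ToType,
      (∃ U : Set V, #U ≤ max ℵ₀ #(Iio η) ∧ Blocks Y tp A t U) →
        Blocks Y tp A t {v | ∃ ζ, (ζ < η ∨ (Iio ζ).Finite) ∧ v ∈ P ζ} := by
  have hmax : ∀ η : κ.ord.ToType, max ℵ₀ #(Iio η) < κ := fun η =>
    max_lt hκ (by simpa using Cardinal.mk_Iio_lt η)
  by_cases hb : ∃ U : Set V, #U < κ ∧ Blocks Y tp A t U
  · obtain ⟨U₀, ⟨hU₀, hB₀⟩, hmin⟩ : ∃ U₀ : Set V, (#U₀ < κ ∧ Blocks Y tp A t U₀) ∧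
        ∀ U : Set V, (#U < κ ∧ Blocks Y tp A t U) → #U₀ ≤ #U := by
      have hwf := (inferInstance : WellFoundedLT Cardinal.{u}).wf
      obtain ⟨m, ⟨U₀, hU₀, rfl⟩, hm⟩ := hwf.has_min
        ((fun U : Set V => #U) '' {U | #U < κ ∧ Blocks Y tp A t U})
        (by obtain ⟨U, hU⟩ := hb; exact ⟨_, U, hU, rfl⟩)
      exact ⟨U₀, hU₀, fun U hU => not_lt.1 (hm _ ⟨U, hU, rfl⟩)⟩
    rcases U₀.eq_empty_or_nonempty with h0 | h0
    · refine ⟨fun _ => ∅, fun _ => subsingleton_empty, fun η _ W hW hn ht => ?_⟩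
      obtain ⟨w, _, hw⟩ := hB₀ W hW hn ht
      rw [h0] at hw
      exact absurd hw (notMem_empty _)
    · obtain ⟨g, _, hg⟩ := hE κ hκ.le U₀ hU₀ h0
      refine ⟨fun ζ => {g ζ}, fun _ => subsingleton_singleton, fun η ⟨U, hU, hBU⟩ W hW hn ht => ?_⟩
      obtain ⟨w, hwW, hw⟩ := hB₀ W hW hn ht
      obtain ⟨ζ, hζ, rfl⟩ := hg η ((hmin U ⟨hU.trans_lt (hmax η), hBU⟩).trans hU) hw
      exact ⟨g ζ, hwW, ζ, hζ, rfl⟩
  · refine ⟨fun _ => ∅, fun _ => subsingleton_empty, fun η ⟨U, hU, hBU⟩ => ?_⟩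
    exact absurd ⟨U, hU.trans_lt (hmax η), hBU⟩ hb

/-- the property of the new set of the chain -/
def Stage {ι : Type u} (D : V → V → Prop) (c : ι → List V) (Y : Set V) (X : ℕ → Set V) (k : ℕ)
    (μ : Cardinal.{u}) (f : Finset V → Set V) (Z B Y₁ : Set V) : Prop :=
  Z ∪ B ⊆ Y₁ ∧ Y₁ ⊆ Y ∧ #Y₁ ≤ μ ∧ Clos c Y₁ ∧
    (∀ S : Finset V, (↑S : Set V) ⊆ Y₁ → f S ⊆ Y₁) ∧ Rich D Y₁ (upd X k B) (k + 1) μ

theorem exists_rec {Λ : Type u} [LinearOrder Λ] [WellFoundedLT Λ]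
    (Q : Λ → Set V → Set V → Prop)
    (h : ∀ (η : Λ) (Y' : Λ → Set V), (∀ ξ < η, Q ξ (⋃ ζ : Iio ξ, Y' ζ) (Y' ξ)) →
      ∃ Y₁, Q η (⋃ ζ : Iio η, Y' ζ) Y₁) :
    ∃ Y' : Λ → Set V, ∀ η, Q η (⋃ ζ : Iio η, Y' ζ) (Y' η) := by
  classical
  have hwf := (inferInstance : WellFoundedLT Λ).wf
  let step : ∀ η : Λ, (∀ ξ, ξ < η → Set V) → Set V := fun η prev =>
    if h : ∃ Y₁, Q η (⋃ ζ : Iio η, prev ζ.1 ζ.2) Y₁ then h.choose else ∅
  let Y' : Λ → Set V := hwf.fix step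
  have hY' : ∀ η, Y' η = step η fun ξ _ => Y' ξ := fun η => hwf.fix_eq step η
  refine ⟨Y', fun η => ?_⟩
  induction η using hwf.induction with
  | _ η ih =>
    have h1 : ∃ Y₁, Q η (⋃ ζ : Iio η, Y' ζ.1) Y₁ := h η Y' fun ξ hξ => ih ξ hξ
    have h2 : Y' η = h1.choose := by
      rw [hY' η]
      exact dif_pos h1
    rw [h2]
    exact h1.choose_spec

theorem t_CHAIN (hT : S_TYPE.{u}) (hE : S_ENUMSET.{u}) (hS : S_STEP.{u}) : S_CHAIN.{u} := by
  intro V D ι c hLF Y X k κ hκ hY hC hR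
  obtain ⟨𝒯, hcT, tp, htp⟩ := hT D X k
  let μ : κ.ord.ToType → Cardinal.{u} := fun η => max ℵ₀ #(Iio η)
  have hμ0 : ∀ η, ℵ₀ ≤ μ η := fun η => le_max_left _ _
  have hμκ : ∀ η, μ η < κ := fun η => max_lt hκ (by simpa using Cardinal.mk_Iio_lt η)
  have hμm : ∀ ξ η, ξ < η → μ ξ ≤ μ η := fun ξ η h =>
    max_le_max le_rfl (mk_le_mk_of_subset (Iio_subset_Iio h.le))
  choose P hP1 hP2 using fun (A : Finset V) (t : 𝒯) => exists_P hE Y tp κ hκ A t
  let N : κ.ord.ToType → Set κ.ord.ToType := fun η => {ζ | ζ ≤ η ∨ (Iio ζ).Finite}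
  have hN : ∀ η, #(N η) ≤ μ η := by
    intro η
    have h1 : N η ⊆ (Iio η ∪ {η}) ∪ {ζ : κ.ord.ToType | (Iio ζ).Finite} := by
      rintro ζ (h | h)
      · rcases h.lt_or_eq with h | h
        · exact Or.inl (Or.inl h)
        · exact Or.inl (Or.inr h)
      · exact Or.inr h
    refine (mk_le_mk_of_subset h1).trans ?_
    refine (mk_union_le _ _).trans ?_
    refine add_le_of_le (hμ0 η) ((mk_union_le _ _).trans (add_le_of_le (hμ0 η)
      (le_max_right _ _) ?_)) ?_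
    · rw [mk_singleton]
      exact one_le_aleph0.trans (hμ0 η)
    · exact (mk_le_aleph0_iff.2 (countable_finite_Iio _).to_subtype).trans (hμ0 η)
  let f : κ.ord.ToType → Finset V → Set V := fun η S =>
    Y ∩ ⋃ i : ({A : Finset V // A ⊆ S} × 𝒯) × N η, P i.1.1.1 i.1.2 i.2.1
  have hf : ∀ η S, #(f η S) ≤ μ η := by
    intro η S
    refine (mk_le_mk_of_subset inter_subset_right).trans ((mk_iUnion_le_index fun i => hP1 _ _ _).trans ?_)
    rw [mk_prod, lift_id, lift_id]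
    refine mul_le_of_le (hμ0 η) ?_ (hN η)
    refine le_trans ?_ (hμ0 η)
    have hfin : Finite {A : Finset V // A ⊆ S} := by
      have : {A : Finset V | A ⊆ S}.Finite := by
        have h2 : {A : Finset V | A ⊆ S} = ↑S.powerset := by
          ext A; simp
        rw [h2]; exact Finset.finite_toSet _
      exact this.to_subtype
    exact mk_le_aleph0
  have hfY : ∀ η S, f η S ⊆ Y := fun η S => inter_subset_left
  obtain ⟨e⟩ : Nonempty (Y ↪ κ.ord.ToType) := by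
    rw [← Cardinal.le_def, mk_ord_toType]
    exact hY
  let Z : κ.ord.ToType → Set V := fun η => {v | ∃ h : v ∈ Y, e ⟨v, h⟩ = η}
  have hZY : ∀ η, Z η ⊆ Y := fun η v ⟨h, _⟩ => h
  have hZ : ∀ η, #(Z η) ≤ μ η := by
    intro η
    have h1 : (Z η).Subsingleton := by
      rintro v ⟨hv, h1⟩ w ⟨hw, h2⟩
      exact congrArg Subtype.val (e.injective (h1.trans h2.symm))
    exact (mk_le_one_iff_set_subsingleton.2 h1).trans (one_le_aleph0.trans (hμ0 η))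
  obtain ⟨Y', hY'⟩ := exists_rec (V := V) (Λ := κ.ord.ToType)
    (fun η B Y₁ => Stage D c Y X k (μ η) (f η) (Z η) B Y₁) (by
      intro η Y' ih
      have hsub : ∀ ξ < η, Y' ξ ⊆ Y := fun ξ hξ => (ih ξ hξ).2.1
      have hmono : ∀ ξ < η, ∀ ζ < ξ, Y' ζ ⊆ Y' ξ := by
        intro ξ hξ ζ hζ
        refine Subset.trans ?_ (union_subset_iff.1 (ih ξ hξ).1).2
        exact subset_iUnion_of_subset ⟨ζ, hζ⟩ subset_rfl
      have hBY : (⋃ ζ : Iio η, Y' ζ) ⊆ Y := iUnion_subset fun ζ => hsub ζ.1 ζ.2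
      have hBμ : #(⋃ ζ : Iio η, Y' ζ) ≤ μ η := by
        refine mk_iUnion_le_of (hμ0 η) (le_max_right _ _) fun ζ => ?_
        exact ((ih ζ.1 ζ.2).2.2.1).trans (hμm _ _ ζ.2)
      refine hS D ι c hLF Y X k κ (μ η) (hμ0 η) (hμκ η) hC hR (⋃ ζ : Iio η, Y' ζ) hBY hBμ ?_ (f η)
        (hf η) (hfY η) (Z η) (hZY η) (hZ η)
      intro A W hA hW hAB hWB U hU
      have hkey : ∃ W' : Finset V, (↑W' : Set V) ⊆ Y ∧ tp A W' = tp A W ∧ ∀ w ∈ W', w ∉ U := by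
        by_contra hno
        push Not at hno
        have hblock : Blocks Y tp A (tp A W) U := fun W' h1 _ h3 => hno W' h1 h3
        obtain ⟨w, hw, ζ, hζ, hwP⟩ := hP2 A (tp A W) η ⟨U, hU, hblock⟩ W
          (fun w hw => (hWB hw).1) hW rfl
        obtain ⟨ξ₀, hξ₀, hAξ⟩ : ∃ ξ₀ < η, (↑A : Set V) ⊆ Y' ξ₀ := by
          clear hWB hW hw hwP hblock hno
          induction hA using Finset.Nonempty.cons_induction with
          | singleton a =>
            obtain ⟨⟨ξ, hξ⟩, h1⟩ := mem_iUnion.1 (hAB (by simp : a ∈ (↑({a} : Finset V) : Set V)))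
            refine ⟨ξ, hξ, ?_⟩
            intro x hx
            rw [Finset.coe_singleton, mem_singleton_iff] at hx
            rw [hx]; exact h1
          | cons a s ha hs ih2 =>
            obtain ⟨ξ₁, hξ₁, h1⟩ := ih2 (fun x hx => hAB (by
              rw [Finset.coe_cons]; exact mem_insert_of_mem _ hx))
            obtain ⟨⟨ξ₂, hξ₂⟩, h2⟩ := mem_iUnion.1 (hAB (by
              rw [Finset.coe_cons]; exact mem_insert _ _ : a ∈ (↑(Finset.cons a s ha) : Set V)))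
            have h3 : ∀ ξ ζ, ξ < η → ζ ≤ ξ → Y' ζ ⊆ Y' ξ := by
              intro ξ ζ hξ hζ
              rcases hζ.lt_or_eq with h | h
              · exact hmono ξ hξ ζ h
              · rw [h]
            refine ⟨max ξ₁ ξ₂, max_lt hξ₁ hξ₂, ?_⟩
            rw [Finset.coe_cons]
            intro x hx
            rcases mem_insert_iff.1 hx with rfl | hx
            · exact h3 _ _ (max_lt hξ₁ hξ₂) (le_max_right _ _) h2
            · exact h3 _ _ (max_lt hξ₁ hξ₂) (le_max_left _ _) (h1 hx)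
        have hwY : w ∈ Y := (hWB hw).1
        have hput : ∀ ξ < η, (↑A : Set V) ⊆ Y' ξ → ζ ∈ N ξ → w ∈ ⋃ ζ : Iio η, Y' ζ := by
          intro ξ hξ hA' hζ'
          refine mem_iUnion.2 ⟨⟨ξ, hξ⟩, (ih ξ hξ).2.2.2.2.1 A hA' ?_⟩
          refine ⟨hwY, mem_iUnion.2 ⟨((⟨A, Finset.Subset.refl A⟩, tp A W), ⟨ζ, hζ'⟩), hwP⟩⟩
        refine (hWB hw).2 ?_
        rcases hζ with hζ | hζ
        · refine hput (max ζ ξ₀) (max_lt hζ hξ₀) ?_ (Or.inl (le_max_left _ _))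
          rcases (le_max_right ζ ξ₀).lt_or_eq with h | h
          · exact hAξ.trans (hmono _ (max_lt hζ hξ₀) _ h)
          · rw [← h]; exact hAξ
        · exact hput ξ₀ hξ₀ hAξ (Or.inr hζ)
      obtain ⟨W', h1, h2, h3⟩ := hkey
      obtain ⟨φ, hφ1, hφ2, hφ3, hφ4, hφ5⟩ := htp A W W' h2.symm
      have hφW : ∀ w ∈ W, φ w ∈ W' := by
        intro w hw
        have : φ w ∈ φ '' (↑W : Set V) := ⟨w, hw, rfl⟩
        rw [hφ2] at this
        exact this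
      refine ⟨φ, ⟨hφ1, fun w hw => h1 (hφW w hw), fun w hw j h5 h6 => absurd h6 (not_lt.2 h5),
        fun w hw j hj h5 => (hφ3 w hw j hj).1 h5, hφ4, hφ5⟩, fun w hw => h3 _ (hφW w hw)⟩)
  have hmono : Monotone Y' := by
    intro ζ ξ hζ
    rcases hζ.lt_or_eq with h | h
    · refine Subset.trans ?_ (union_subset_iff.1 (hY' ξ).1).2
      exact subset_iUnion_of_subset ⟨ζ, h⟩ subset_rfl
    · rw [h]
  refine ⟨κ.ord.ToType, inferInstance, inferInstance, Y', μ, fun η => ⟨hμ0 η, hμκ η, (hY' η).2.2.1⟩,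
    hmono, ?_, fun η => (hY' η).2.2.2.1, fun η => (hY' η).2.2.2.2.2⟩
  refine Subset.antisymm (iUnion_subset fun η => (hY' η).2.1) fun v hv => ?_
  exact mem_iUnion.2 ⟨e ⟨v, hv⟩, (union_subset_iff.1 (hY' _).1).1 ⟨hv, rfl⟩⟩

end Pool.Agent.Q179.CR
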