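import Pool.Agent.Q179.CR.Stm

/-!
# Replacing the cycles of a list
-/

set_option autoImplicit false

namespace Pool.Agent.Q179.CR

open Set Cardinal

universe u

theorem tot_snoc {V : Type u} (H : List (List V)) (C : List V) :
    tot (H ++ [C]) = tot H + ind C := by
  simp [tot_append]

theorem Val_snoc {V : Type u} {D : V → V → Prop} {H : List (List V)} {C : List V}
    (h1 : Val D 0 H) (h2 : DC D (tot H) C) : Val D 0 (H ++ [C]) := by
  rw [Val_append]
  exact ⟨h1, by rw [zero_add]; exact h2, trivial⟩

theorem t_CONV : S_CONV.{u} := by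
  intro V D Y X k K i hG L
  induction L with
  | nil => intro H _ _ _ _; exact ⟨[], trivial, rfl, by simp⟩
  | cons C L ih =>
    intro H hH hok hV hL
    obtain ⟨T₁, h1, h2, h3⟩ := hG H C hH hok hV.1 (hL C (by simp)).1 (hL C (by simp)).2
    obtain ⟨T₂, h4, h5, h6⟩ := ih (H ++ [C]) (Val_snoc hH hV.1) (by
      intro C' hC' e he
      rcases List.mem_append.1 hC' with h | h
      · exact hok C' h e he
      · rw [List.mem_singleton.1 h] at he
        exact ((hL C (by simp)).1 e he).1) (by rw [tot_snoc]; exact hV.2)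
      fun C' hC' => hL C' (List.mem_cons_of_mem _ hC')
    refine ⟨T₁ ++ T₂, ?_, ?_, ?_⟩
    · rw [Val_append]
      refine ⟨h1, ?_⟩
      rw [h2, ← tot_snoc]; exact h4
    · rw [tot_append, h2, h5, tot_cons]
    · intro C' hC'
      rcases List.mem_append.1 hC' with h | h
      · exact h3 C' h
      · exact h6 C' h

end Pool.Agent.Q179.CR
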