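import Pool.Agent.Q179.CR.Stm

/-!
# Lexicographic sums of reversal sequences
-/

set_option autoImplicit false

namespace Pool.Agent.Q179.CR

open Set Cardinal

universe u v w

theorem wf_sigma {Λ : Type u} {τ : Λ → Type v} [LinearOrder Λ] [WellFoundedLT Λ]
    [∀ l, LinearOrder (τ l)] [∀ l, WellFoundedLT (τ l)] : WellFoundedLT (Σₗ l, τ l) := by
  constructor
  constructor
  rintro ⟨l, x⟩
  induction l using WellFoundedLT.induction with
  | _ l ih1 =>
    induction x using WellFoundedLT.induction with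
    | _ x ih2 =>
      constructor
      rintro ⟨m, y⟩ h
      rcases Sigma.Lex.lt_def.1 h with h | ⟨h, h'⟩
      · exact ih1 m h y
      · dsimp only at h
        subst h
        exact ih2 y h'

/-- the member `x` of the `l`-th summand -/
def mkl {Λ : Type u} {τ : Λ → Type v} (l : Λ) (x : τ l) : Σₗ l, τ l := toLex ⟨l, x⟩

theorem t_UNION : S_UNION.{u} := by
  intro V D g Λ E hdis hSol
  choose τ ord wf t hF h3 hE hall using hSol
  obtain ⟨oΛ, wΛ⟩ := exists_wellFoundedLT Λ
  let t' : (Σₗ l, τ l) → List V := fun p => t p.1 p.2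
  have huniq : ∀ (e : Sym2 V) (l : Λ), e ∈ E l → ∀ p : (Σₗ l, τ l), e ∈ medges (t' p) → p.1 = l := by
    intro e l he p hp
    by_contra hne
    exact Set.disjoint_left.1 (hdis _ _ hne) (hE p.1 p.2 e hp) he
  have hset : ∀ (e : Sym2 V) (l : Λ), e ∈ E l →
      {p : (Σₗ l, τ l) | e ∈ medges (t' p)} = mkl l ''
        {x | e ∈ medges (t l x)} := by
    intro e l he
    ext ⟨m, y⟩
    constructor
    · intro hp
      have := huniq e l he _ hp
      dsimp only at this
      subst this
      exact ⟨y, hp, rfl⟩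
    · rintro ⟨x, hx, hxy⟩
      rw [← hxy]
      exact hx
  have hset' : ∀ (e : Sym2 V) (l : Λ), e ∈ E l → ∀ x : τ l,
      {p : (Σₗ l, τ l) | p < mkl l x ∧ e ∈ medges (t' p)} = mkl l ''
        {y | y < x ∧ e ∈ medges (t l y)} := by
    intro e l he x
    ext ⟨m, y⟩
    constructor
    · rintro ⟨hlt, hp⟩
      have := huniq e l he _ hp
      dsimp only at this
      subst this
      rcases Sigma.Lex.lt_def.1 hlt with h | ⟨h, h'⟩
      · exact absurd h (lt_irrefl _)
      · exact ⟨y, ⟨h', hp⟩, rfl⟩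
    · rintro ⟨z, ⟨hz, hz'⟩, hxy⟩
      rw [← hxy]
      exact ⟨Sigma.Lex.lt_def.2 (Or.inr ⟨rfl, hz⟩), hz'⟩
  have hinj : ∀ l : Λ, Function.Injective (mkl (τ := τ) l) := by
    intro l x y h
    exact sigma_mk_injective h
  refine ⟨Σₗ l, τ l, inferInstance, wf_sigma, t', ⟨?_, ?_⟩, fun p => h3 _ _, fun p e he =>
    mem_iUnion.2 ⟨p.1, hE _ _ e he⟩, ?_⟩
  · intro e
    by_cases hex : ∃ p, e ∈ medges (t' p)
    · obtain ⟨p, hp⟩ := hex
      rw [hset e p.1 (hE _ _ e hp)]
      exact ((hF p.1).1 e).image _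
    · have : {p : (Σₗ l, τ l) | e ∈ medges (t' p)} = ∅ := by
        ext p
        simp only [mem_ofPred_eq, mem_empty_iff_false, iff_false]
        exact fun hp => hex ⟨p, hp⟩
      rw [this]
      exact finite_empty
  · rintro ⟨l, x⟩
    refine (DC_congr fun e he => ?_).1 ((hF l).2 x)
    change _ = (({p : (Σₗ l, τ l) | p < mkl l x ∧ e ∈ medges (t' p)}.ncard : ℕ) : ZMod 2)
    rw [hset' e l (hE l x e he) x, ncard_image_of_injective _ (hinj l)]
    rfl
  · intro e he
    obtain ⟨l, hl⟩ := mem_iUnion.1 he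
    rw [← hall l e hl]
    unfold all
    rw [hset e l hl, ncard_image_of_injective _ (hinj l)]

end Pool.Agent.Q179.CR
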