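import Pool.Agent.Q95.CR.Rot
import Pool.Agent.Q179.CR.Union

/-!
# From lists of 3-cycles to a reversal sequence
-/

set_option autoImplicit false

namespace Pool.Agent.Q179.CR

open Set Cardinal

universe u v w

theorem ind_eq_one {V : Type u} {C : List V} (h1 : C.Nodup) (h2 : 3 ≤ C.length) {e : Sym2 V}
    (he : e ∈ medges C) : ind C e = 1 := by
  classical
  unfold ind
  rw [List.count_eq_one_of_mem (Pool.Agent.Q95.CR.t_NODUP C h1 h2).1 he]
  rfl

open Classical in
theorem ind_eq_ite {V : Type u} {C : List V} (h1 : C.Nodup) (h2 : 3 ≤ C.length) (e : Sym2 V) :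
    ind C e = if e ∈ medges C then 1 else 0 := by
  split_ifs with h
  · exact ind_eq_one h1 h2 h
  · exact ind_eq_zero h

theorem Val_get {V : Type u} {D : V → V → Prop} {F : Sym2 V → ZMod 2} {L : List (List V)}
    (h : Val D F L) (i : Fin L.length) : DC D (F + tot (L.take i)) L[i] := by
  induction L generalizing F with
  | nil => exact i.elim0
  | cons C L ih =>
    refine Fin.cases ?_ (fun j => ?_) i
    · simpa using h.1
    · have := ih h.2 j
      simpa [add_assoc] using this

theorem Val_mem {V : Type u} {D : V → V → Prop} {F : Sym2 V → ZMod 2} {L : List (List V)}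
    (h : Val D F L) {C : List V} (hC : C ∈ L) : C.Nodup ∧ 3 ≤ C.length := by
  induction L generalizing F with
  | nil => simp at hC
  | cons B L ih =>
    rcases List.mem_cons.1 hC with rfl | hC
    · exact ⟨h.1.1, h.1.2.1⟩
    · exact ih h.2 hC

theorem sum_take {V : Type u} (L : List (List V)) (i : ℕ) (e : Sym2 V) :
    (∑ j : Fin L.length, if j.1 < i then ind L[j] e else 0) = tot (L.take i) e := by
  induction L generalizing i with
  | nil => simp [tot]
  | cons C L ih =>
    cases i with
    | zero => simp [tot]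
    | succ i =>
      have h1 : (∑ j : Fin (C :: L).length, if j.1 < i + 1 then ind (C :: L)[j] e else 0) =
          ind C e + ∑ j : Fin L.length, if j.1 < i then ind L[j] e else 0 := by
        rw [show (∑ j : Fin (C :: L).length, if j.1 < i + 1 then ind (C :: L)[j] e else 0) =
          ∑ j : Fin (L.length + 1), if j.1 < i + 1 then ind ((C :: L)[j.1]'j.2) e else 0 from rfl,
          Fin.sum_univ_succ]
        simp
      rw [h1, ih]
      simp

theorem sum_all {V : Type u} (L : List (List V)) (e : Sym2 V) :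
    (∑ j : Fin L.length, ind L[j] e) = tot L e := by
  have h := sum_take L L.length e
  rw [List.take_length] at h
  rw [← h]
  exact Finset.sum_congr rfl fun j _ => by rw [if_pos j.2]

section
variable {V : Type u} (T : ℕ → List (List V))

/-- the members of the lists, with positions -/
abbrev Pos : Type := Σₗ n : ℕ, Fin (T n).length

/-- the member at a position -/
def memb (p : ULift.{u} (Pos T)) : List V := (T p.down.1)[p.down.2]

/-- the position -/
def mkp (n : ℕ) (i : Fin (T n).length) : ULift.{u} (Pos T) := ULift.up (toLex ⟨n, i⟩)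

theorem mkp_lt {m n : ℕ} {i : Fin (T m).length} {j : Fin (T n).length} :
    mkp T m i < mkp T n j ↔ m < n ∨ (m = n ∧ i.1 < j.1) := by
  constructor
  · intro h
    have h0 : (mkp T m i).down < (mkp T n j).down := h
    rcases Sigma.Lex.lt_def.1 h0 with h | ⟨h, h'⟩
    · exact Or.inl h
    · have h1 : m = n := h
      subst h1
      exact Or.inr ⟨rfl, h'⟩
  · rintro (h | ⟨h, h'⟩)
    · exact Sigma.Lex.lt_def.2 (Or.inl h)
    · subst h
      exact Sigma.Lex.lt_def.2 (Or.inr ⟨rfl, h'⟩)

open Classical in
theorem hcount (hT : ∀ n, ∀ C ∈ T n, C.Nodup ∧ 3 ≤ C.length) (P : ULift.{u} (Pos T) → Prop)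
    (e : Sym2 V) (N : ℕ) (hN : ∀ m, N ≤ m → ∀ C ∈ T m, e ∉ medges C) :
    {q | P q ∧ e ∈ medges (memb T q)}.Finite ∧
    (({q | P q ∧ e ∈ medges (memb T q)}.ncard : ℕ) : ZMod 2) =
      ∑ m ∈ Finset.range N, ∑ j : Fin (T m).length, if P (mkp T m j) then ind (T m)[j] e else 0 := by
  let S : Finset (Σ m : ℕ, Fin (T m).length) := (Finset.range N).sigma fun m =>
    Finset.univ.filter fun j => P (mkp T m j) ∧ e ∈ medges (T m)[j]
  have hinj : Function.Injective fun p : (Σ m : ℕ, Fin (T m).length) => mkp T p.1 p.2 := by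
    rintro ⟨m, i⟩ ⟨n, j⟩ h
    exact congrArg (fun q : ULift.{u} (Pos T) => ofLex q.down) h
  have hset : {q | P q ∧ e ∈ medges (memb T q)} =
      ((fun p : (Σ m : ℕ, Fin (T m).length) => mkp T p.1 p.2) '' (↑S : Set _)) := by
    ext q
    constructor
    · rintro ⟨h1, h2⟩
      refine ⟨⟨q.down.1, q.down.2⟩, ?_, rfl⟩
      rw [Finset.mem_coe, Finset.mem_sigma, Finset.mem_range, Finset.mem_filter]
      refine ⟨?_, Finset.mem_univ _, h1, h2⟩
      by_contra hlt
      exact hN _ (not_lt.1 hlt) _ (List.getElem_mem _) h2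
    · rintro ⟨⟨m, j⟩, h1, rfl⟩
      rw [Finset.mem_coe, Finset.mem_sigma, Finset.mem_range, Finset.mem_filter] at h1
      exact h1.2.2
  rw [hset]
  refine ⟨S.finite_toSet.image _, ?_⟩
  rw [ncard_image_of_injective _ hinj, ncard_coe_finset, Finset.card_sigma]
  push_cast
  refine Finset.sum_congr rfl fun m _ => ?_
  rw [Finset.card_filter]
  push_cast
  refine Finset.sum_congr rfl fun j _ => ?_
  have hj := hT m (T m)[j] (List.getElem_mem _)
  rw [ind_eq_ite hj.1 hj.2 e]
  by_cases h1 : P (mkp T m j) <;> simp [h1]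

end

theorem t_FLAT : S_FLAT.{u} := by
  classical
  intro V D T hV hfin
  have hT : ∀ n, ∀ C ∈ T n, C.Nodup ∧ 3 ≤ C.length := fun n C hC => Val_mem (hV n) hC
  have hbound : ∀ e : Sym2 V, ∃ N, ∀ m, N ≤ m → ∀ C ∈ T m, e ∉ medges C := by
    intro e
    obtain ⟨N, hN⟩ := (hfin e).bddAbove
    refine ⟨N + 1, fun m hm C hC he => ?_⟩
    have : m ≤ N := hN ⟨C, hC, he⟩
    omega
  have : WellFoundedLT (Pos T) := wf_sigma
  have hwf : WellFoundedLT (ULift.{u} (Pos T)) :=
    ⟨InvImage.wf ULift.down (inferInstance : WellFoundedLT (Pos T)).wf⟩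
  refine ⟨ULift.{u} (Pos T), inferInstance, hwf, memb T, ⟨?_, ?_⟩, fun p => ⟨_, List.getElem_mem _⟩,
    ?_⟩
  · intro e
    obtain ⟨N, hN⟩ := hbound e
    have h := (hcount T hT (fun _ => True) e N hN).1
    simpa using h
  · rintro ⟨n, i⟩
    refine (DC_congr fun e _ => ?_).1 (Val_get (hV n) i)
    obtain ⟨N, hN⟩ := hbound e
    have hN' : ∀ m, max N (n + 1) ≤ m → ∀ C ∈ T m, e ∉ medges C := fun m hm =>
      hN m ((le_max_left _ _).trans hm)
    have h := (hcount T hT (fun q => q < mkp T n i) e _ hN').2
    have h2 : bef (memb T) (mkp T n i) e = ∑ m ∈ Finset.range (n + 1), ∑ j : Fin (T m).length,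
        if mkp T m j < mkp T n i then ind (T m)[j] e else 0 := by
      rw [show bef (memb T) (mkp T n i) e =
        (({q | q < mkp T n i ∧ e ∈ medges (memb T q)}.ncard : ℕ) : ZMod 2) from rfl, h]
      symm
      refine Eq.trans (Finset.sum_subset (Finset.range_subset_range.2 (le_max_right N _))
        (f := fun m => ∑ j : Fin (T m).length,
          if mkp T m j < mkp T n i then ind (T m)[j] e else 0) ?_)
        (Finset.sum_congr rfl fun m _ => Finset.sum_congr rfl fun j _ => by congr)
      intro m _ hm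
      refine Finset.sum_eq_zero fun j _ => ?_
      rw [if_neg]
      rw [mkp_lt]
      rw [Finset.mem_range] at hm
      omega
    rw [show bef (memb T) ⟨n, i⟩ e = bef (memb T) (mkp T n i) e from rfl, h2,
      Finset.sum_range_succ]
    rw [Pi.add_apply, Finset.sum_apply]
    congr 1
    · refine Finset.sum_congr rfl fun m hm => ?_
      rw [← sum_all]
      refine Finset.sum_congr rfl fun j _ => ?_
      rw [if_pos]
      rw [mkp_lt]
      exact Or.inl (Finset.mem_range.1 hm)
    · rw [← sum_take]
      refine Finset.sum_congr rfl fun j _ => ?_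
      have : mkp T n j < mkp T n i ↔ j.1 < i.1 := by
        rw [mkp_lt]; omega
      simp only [this]
  · intro e
    obtain ⟨N, hN⟩ := hbound e
    have h := (hcount T hT (fun _ => True) e N hN).2
    simp only [true_and, if_true] at h
    have h1 : all (memb T) e = ∑ m ∈ Finset.range N, ∑ j : Fin (T m).length, ind (T m)[j] e := h
    rw [h1, finsum_eq_sum_of_support_subset (s := Finset.range N)]
    · exact Finset.sum_congr rfl fun m _ => sum_all _ _
    · intro m hm
      rw [Finset.mem_coe, Finset.mem_range]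
      by_contra hlt
      refine hm ?_
      show tot (T m) e = 0
      rw [← sum_all]
      exact Finset.sum_eq_zero fun j _ => ind_eq_zero (hN m (not_lt.1 hlt) _ (List.getElem_mem _))

end Pool.Agent.Q179.CR
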