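import Pool.Agent.Q179.CR.Final
import Pool.Agent.Q179.CR.Conv
import Pool.Agent.Q179.CR.Flat

/-!
# The copy trick
-/

set_option autoImplicit false

namespace Pool.Agent.Q179.CR

open Set Cardinal

universe u v

theorem parcs_map {V : Type u} (ψ : V → V) (a : V) (l : List V) :
    parcs (ψ a) (l.map ψ) = (parcs a l).map (Prod.map ψ ψ) := by
  induction l generalizing a with
  | nil => rfl
  | cons b l ih => simp [parcs, ih]

theorem carcs_map {V : Type u} (ψ : V → V) (l : List V) :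
    carcs (l.map ψ) = (carcs l).map (Prod.map ψ ψ) := by
  cases l with
  | nil => rfl
  | cons a l =>
    show parcs (ψ a) (l.map ψ ++ [ψ a]) = _
    rw [show l.map ψ ++ [ψ a] = (l ++ [a]).map ψ by simp, parcs_map]
    rfl

theorem medges_map {V : Type u} (ψ : V → V) (l : List V) :
    medges (l.map ψ) = (medges l).map (Sym2.map ψ) := by
  unfold medges
  rw [carcs_map, List.map_map, List.map_map]
  rfl

theorem tot_eq_zero {V : Type u} {H : List (List V)} {e : Sym2 V}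
    (h : ∀ C ∈ H, e ∉ medges C) : tot H e = 0 := by
  induction H with
  | nil => rfl
  | cons C H ih =>
    rw [tot_cons, Pi.add_apply, ind_eq_zero (h C (by simp)),
      ih fun C' hC' => h C' (List.mem_cons_of_mem _ hC'), add_zero]

theorem add_self2 {V : Type u} (f : Sym2 V → ZMod 2) : f + f = 0 := by
  funext e
  show f e + f e = 0
  rcases zmod2 (f e) with h | h <;> rw [h] <;> decide

theorem t_COPY (hTr : S_TRANS.{u}) (hU : S_UNDO.{u}) (hEx : S_EXCH.{u}) : S_COPY.{u} := by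
  classical
  intro V D hD Y X k K i hK hR hik hG H G hH hHok hDC hGok hab
  obtain ⟨a, ha, b, hb, hab, haX, hbX⟩ := hab
  have hH1 : Val D 0 (H ++ [G]) := Val_snoc hH hDC
  have hnd : ∀ C ∈ H ++ [G], C.Nodup ∧ 3 ≤ C.length := fun C hC => Val_mem hH1 hC
  have hok : ∀ C ∈ H ++ [G], ∀ e ∈ medges C, ok Y X k e := by
    intro C hC e he
    rcases List.mem_append.1 hC with h | h
    · exact hHok C h e he
    · rw [List.mem_singleton.1 h] at he
      exact (hGok e he).1
  let S : Finset V := (H ++ [G]).flatten.toFinset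
  have hS : ∀ C ∈ H ++ [G], ∀ v ∈ C, v ∈ S := by
    intro C hC v hv
    rw [List.mem_toFinset, List.mem_flatten]
    exact ⟨C, hC, hv⟩
  have hSY : ∀ v ∈ S, v ∈ Y := by
    intro v hv
    rw [List.mem_toFinset, List.mem_flatten] at hv
    obtain ⟨C, hC, hv⟩ := hv
    obtain ⟨e, he, hve⟩ := (Pool.Agent.Q95.CR.t_NODUP C (hnd C hC).1 (hnd C hC).2).2.2.2 v hv
    exact (hok C hC e he).1 v hve
  have hGm : G ∈ H ++ [G] := by simp
  have hHm : ∀ C ∈ H, C ∈ H ++ [G] := fun C hC => List.mem_append_left _ hC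
  let A : Finset V := S.filter fun v => v ∈ X i
  let W : Finset V := S.filter fun v => v ∉ X i
  have hAne : A.Nonempty := ⟨a, Finset.mem_filter.2 ⟨hS G hGm a ha, haX⟩⟩
  obtain ⟨φ, hφ, hav⟩ := hR i hik A W hAne
    (fun v hv => ⟨(Finset.mem_filter.1 (Finset.mem_coe.1 hv)).2,
      hSY v (Finset.mem_filter.1 (Finset.mem_coe.1 hv)).1⟩)
    (fun v hv => ⟨hSY v (Finset.mem_filter.1 (Finset.mem_coe.1 hv)).1,
      (Finset.mem_filter.1 (Finset.mem_coe.1 hv)).2⟩) (K ∪ ↑S)
    (lt_aleph0_iff_set_finite.2 (hK.union S.finite_toSet))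
  let ψ : V → V := fun v => if v ∈ W then φ v else v
  have hψW : ∀ v ∈ W, ψ v = φ v := fun v hv => if_pos hv
  have hψX : ∀ v ∈ X i, ψ v = v := by
    intro v hv
    have h : v ∉ W := fun h => (Finset.mem_filter.1 h).2 hv
    exact if_neg h
  have hW : ∀ v ∈ S, v ∉ X i → v ∈ W := fun v hv hv' => Finset.mem_filter.2 ⟨hv, hv'⟩
  have hfS : ∀ v ∈ S, v ∉ X i → ψ v ∉ S := by
    intro v hv hv' h
    rw [hψW v (hW v hv hv')] at h
    exact hav v (hW v hv hv') (Or.inr h)
  have hfK : ∀ v ∈ S, v ∉ X i → ψ v ∉ K := by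
    intro v hv hv' h
    rw [hψW v (hW v hv hv')] at h
    exact hav v (hW v hv hv') (Or.inl h)
  have hfX : ∀ v ∈ S, v ∉ X i → ∀ j, i ≤ j → j < k → ψ v ∉ X j := by
    intro v hv hv' j h1 h2
    rw [hψW v (hW v hv hv')]
    exact hφ.avoid v (hW v hv hv') j h1 h2
  have hψY : ∀ v ∈ S, ψ v ∈ Y := by
    intro v hv
    by_cases h : v ∈ X i
    · rw [hψX v h]; exact hSY v hv
    · rw [hψW v (hW v hv h)]; exact hφ.maps v (hW v hv h)
  have hψj : ∀ v ∈ S, ∀ j < i, v ∉ X j → ψ v ∉ X j := by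
    intro v hv j hj hvj
    by_cases h : v ∈ X i
    · rw [hψX v h]; exact hvj
    · rw [hψW v (hW v hv h)]
      exact fun h' => hvj (hφ.mem v (hW v hv h) j hj h')
  have hinj : InjOn ψ (↑S : Set V) := by
    intro x hx y hy hxy
    rw [Finset.mem_coe] at hx hy
    by_cases h1 : x ∈ X i <;> by_cases h2 : y ∈ X i
    · rwa [hψX x h1, hψX y h2] at hxy
    · exfalso
      refine hfS y hy h2 ?_
      rw [← hxy, hψX x h1]; exact hx
    · exfalso
      refine hfS x hx h1 ?_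
      rw [hxy, hψX y h2]; exact hy
    · rw [hψW x (hW x hx h1), hψW y (hW y hy h2)] at hxy
      exact hφ.inj (Finset.mem_coe.2 (hW x hx h1)) (Finset.mem_coe.2 (hW y hy h2)) hxy
  /- pairs with a new vertex are not used by `H` and `G` -/
  have hnew : ∀ C ∈ H ++ [G], ∀ e : Sym2 V, (∃ v ∈ e, v ∉ S) → e ∉ medges C := by
    rintro C hC e ⟨v, hv, hv'⟩ he
    exact hv' (hS C hC v ((Pool.Agent.Q95.CR.t_NODUP C (hnd C hC).1 (hnd C hC).2).2.2.1 e he v hv))
  have hHedge : ∀ C ∈ H ++ [G], ∀ e ∈ medges C, ∃ v ∈ e, v ∉ X i := fun C hC e he =>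
    (hok C hC e he).2 i hik
  have hcop : ∀ C ∈ H ++ [G], ∀ e ∈ medges (C.map ψ), ∃ x y, s(x, y) ∈ medges C ∧ x ∈ C ∧ y ∈ C ∧
      e = s(ψ x, ψ y) ∧ (x ∉ X i ∨ y ∉ X i) := by
    intro C hC e he
    rw [medges_map] at he
    obtain ⟨e', he', rfl⟩ := List.mem_map.1 he
    have h1 := hHedge C hC e' he'
    have h2 := (Pool.Agent.Q95.CR.t_NODUP C (hnd C hC).1 (hnd C hC).2).2.2.1 e' he'
    induction e' using Sym2.inductionOn with
    | hf x y =>
      refine ⟨x, y, he', h2 x (Sym2.mem_mk_left x y), h2 y (Sym2.mem_mk_right x y), rfl, ?_⟩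
      obtain ⟨v, hv, hv'⟩ := h1
      rcases Sym2.mem_iff.1 hv with rfl | rfl
      · exact Or.inl hv'
      · exact Or.inr hv'
  have hcopnew : ∀ C ∈ H ++ [G], ∀ e ∈ medges (C.map ψ), ∃ v ∈ e, v ∉ S := by
    intro C hC e he
    obtain ⟨x, y, _, hx, hy, rfl, h⟩ := hcop C hC e he
    rcases h with h | h
    · exact ⟨ψ x, Sym2.mem_mk_left _ _, hfS x (hS C hC x hx) h⟩
    · exact ⟨ψ y, Sym2.mem_mk_right _ _, hfS y (hS C hC y hy) h⟩
  have hcopok : ∀ C ∈ H ++ [G], ∀ e ∈ medges (C.map ψ), okK Y X k K e := by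
    intro C hC e he
    obtain ⟨x, y, hxy, hx, hy, rfl, h⟩ := hcop C hC e he
    have hxS := hS C hC x hx
    have hyS := hS C hC y hy
    refine ⟨⟨fun v hv => ?_, fun j hj => ?_⟩, ?_⟩
    · rcases Sym2.mem_iff.1 hv with rfl | rfl
      · exact hψY x hxS
      · exact hψY y hyS
    · rcases le_or_gt i j with hij | hij
      · rcases h with h | h
        · exact ⟨ψ x, Sym2.mem_mk_left _ _, hfX x hxS h j hij hj⟩
        · exact ⟨ψ y, Sym2.mem_mk_right _ _, hfX y hyS h j hij hj⟩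
      · obtain ⟨v, hv, hv'⟩ := (hok C hC _ hxy).2 j hj
        rcases Sym2.mem_iff.1 hv with rfl | rfl
        · exact ⟨ψ v, Sym2.mem_mk_left _ _, hψj v hxS j hij hv'⟩
        · exact ⟨ψ v, Sym2.mem_mk_right _ _, hψj v hyS j hij hv'⟩
    · rcases h with h | h
      · exact ⟨ψ x, Sym2.mem_mk_left _ _, hfK x hxS h⟩
      · exact ⟨ψ y, Sym2.mem_mk_right _ _, hfK y hyS h⟩
  have hfresh : ∀ v ∈ S, v ∉ X i → ψ v ∉ K ∧ ∀ j, i ≤ j → j < k → ψ v ∉ X j := fun v hv hv' =>
    ⟨hfK v hv hv', hfX v hv hv'⟩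
  have hcopfresh : ∀ C ∈ H ++ [G], ∃ w ∈ C.map ψ, w ∉ K ∧ ∀ j, i ≤ j → j < k → w ∉ X j := by
    intro C hC
    have hne : C ≠ [] := by
      intro h0
      have := (hnd C hC).2
      rw [h0] at this
      simp at this
    obtain ⟨u, hu⟩ := List.exists_mem_of_ne_nil _ hne
    have hN := Pool.Agent.Q95.CR.t_NODUP C (hnd C hC).1 (hnd C hC).2
    obtain ⟨e, he, _⟩ := hN.2.2.2 u hu
    obtain ⟨v, hv, hv'⟩ := hHedge C hC e he
    have hvC := hN.2.2.1 e he v hv
    exact ⟨ψ v, List.mem_map_of_mem hvC, hfresh v (hS C hC v hvC) hv'⟩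
  /- transport -/
  have hbase : ∀ x ∈ (↑S : Set V), ∀ y ∈ (↑S : Set V), x ∉ X i ∨ y ∉ X i →
      (Arc D (tot H) (ψ x) (ψ y) ↔ Arc D 0 x y) := by
    intro x hx y hy h
    rw [Finset.mem_coe] at hx hy
    have h0 : tot H s(ψ x, ψ y) = 0 := by
      refine tot_eq_zero fun C hC => hnew C (hHm C hC) _ ?_
      rcases h with h | h
      · exact ⟨ψ x, Sym2.mem_mk_left _ _, hfS x hx h⟩
      · exact ⟨ψ y, Sym2.mem_mk_right _ _, hfS y hy h⟩
    have h1 : Arc D (tot H) (ψ x) (ψ y) ↔ D (ψ x) (ψ y) := by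
      unfold Arc; rw [h0]; simp
    have h2 : Arc D 0 x y ↔ D x y := by
      unfold Arc; simp
    rw [h1, h2]
    by_cases h3 : x ∈ X i <;> by_cases h4 : y ∈ X i
    · exact absurd h (by simp [h3, h4])
    · have hyW := hW y hy h4
      have hxA : x ∈ A := Finset.mem_filter.2 ⟨hx, h3⟩
      have hne1 : x ≠ y := fun e => h4 (e ▸ h3)
      have hne2 : x ≠ φ y := by
        intro e
        have := hfS y hy h4
        rw [hψW y hyW, ← e] at this
        exact this hx
      rw [hψX x h3, hψW y hyW, hD.2 x y hne1, hD.2 x (φ y) hne2, hφ.outer y hyW x hxA]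
    · have hxW := hW x hx h3
      have hyA : y ∈ A := Finset.mem_filter.2 ⟨hy, h4⟩
      rw [hψX y h4, hψW x hxW]
      exact (hφ.outer x hxW y hyA).symm
    · rw [hψW x (hW x hx h3), hψW y (hW y hy h4)]
      exact (hφ.inner x (hW x hx h3) y (hW y hy h4)).symm
  obtain ⟨t1, t2, _⟩ := hTr D (↑S) (X i) ψ hinj (H ++ [G]) (fun C hC v hv => hS C hC v hv) hHedge
    0 (tot H) hbase
  have hV := t1 hH1
  rw [List.map_append, Val_append] at hV
  obtain ⟨hV1, hV2⟩ := hV
  have hV2' : DC D (tot H + tot (H.map (List.map ψ))) (G.map ψ) := hV2.1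
  have hd0 : ∀ C ∈ H ++ [G], ∀ e ∈ medges G, e ∉ medges (C.map ψ) := by
    intro C hC e he he'
    obtain ⟨v, hv, hv'⟩ := hcopnew C hC e he'
    exact hnew G hGm e ⟨v, hv, hv'⟩ he
  have hF3 : ∀ e ∈ medges G, (tot H + tot (H.map (List.map ψ)) + ind (G.map ψ)) e = tot H e := by
    intro e he
    have h1 : tot (H.map (List.map ψ)) e = 0 := by
      refine tot_eq_zero fun C hC => ?_
      obtain ⟨C', hC', rfl⟩ := List.mem_map.1 hC
      exact hd0 C' (hHm C' hC') e he
    have h2 : ind (G.map ψ) e = 0 := ind_eq_zero (hd0 G hGm e he)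
    simp [h1, h2]
  have htotG : tot ((H ++ [G]).map (List.map ψ)) = tot (H.map (List.map ψ)) + ind (G.map ψ) := by
    rw [List.map_append, tot_append]; simp
  obtain ⟨Z, hZ1, hZ2, hZ3⟩ := hEx D hD (tot H + tot (H.map (List.map ψ)) + ind (G.map ψ)) (X i) ψ G
    ((DC_congr hF3).2 hDC) (by
      intro p hp
      have he : s(p.1, p.2) ∈ medges G := List.mem_map.2 ⟨p, hp, rfl⟩
      have hN := (Pool.Agent.Q95.CR.t_NODUP G (hnd G hGm).1 (hnd G hGm).2).2.2.1 _ he
      have h1 := t2 p.2 (hS G hGm _ (hN _ (Sym2.mem_mk_right _ _))) p.1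
        (hS G hGm _ (hN _ (Sym2.mem_mk_left _ _))) (by
          obtain ⟨v, hv, hv'⟩ := hHedge G hGm _ he
          rcases Sym2.mem_iff.1 hv with rfl | rfl
          · exact Or.inr hv'
          · exact Or.inl hv')
      rw [htotG, ← add_assoc, zero_add, tot_snoc] at h1
      rw [h1, Arc_flip (tot H) (tot H + ind G) (by
        rw [Pi.add_apply, Sym2.eq_swap, ind_eq_one (hnd G hGm).1 (hnd G hGm).2 he])]
      exact hDC.2.2 p hp) (fun x _ hx => hψX x hx)
    (fun x hx hx' h => hfS x (hS G hGm x hx) hx' (hS G hGm _ h))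
    (fun x hx y hy h => hinj (hS G hGm x hx) (hS G hGm y hy) h) (hHedge G hGm)
    ⟨a, ha, b, hb, hab, haX, hbX⟩
  obtain ⟨hu1, hu2, hu3⟩ := hU D hD (tot H) (H.map (List.map ψ)) hV1
  let undo : List (List V) := ((H.map (List.map ψ)).map List.reverse).reverse
  have hu4 : Val D (tot H + tot (H.map (List.map ψ)) + ind (G.map ψ) + tot Z) undo := by
    refine (Val_congr fun C hC e he => ?_).1 hu1
    obtain ⟨C', hC', _, h2⟩ := hu3 C hC
    obtain ⟨C'', hC'', rfl⟩ := List.mem_map.1 hC'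
    have h3 : ind G e = 0 := ind_eq_zero fun he' =>
      hd0 C'' (hHm C'' hC'') e he' ((h2 e).1 he)
    rw [hZ2]
    have h4 : ind (G.map ψ) + (ind G + ind (G.map ψ)) = ind G := by
      rw [add_comm (ind G), ← add_assoc, add_self2, zero_add]
    rw [add_assoc (tot H + tot (H.map (List.map ψ))), h4, Pi.add_apply _ (ind G), h3, add_zero]
  obtain ⟨T, hT1, hT2, hT3⟩ := t_CONV D Y X k K i hG
    (H.map (List.map ψ) ++ ([G.map ψ] ++ (Z ++ undo))) H hH hHok (by
      rw [Val_append, Val_append, Val_append]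
      refine ⟨hV1, ⟨hV2', trivial⟩, ?_, ?_⟩
      · simpa using hZ1
      · simpa using hu4) (by
      intro C hC
      rcases List.mem_append.1 hC with h | h
      · obtain ⟨C', hC', rfl⟩ := List.mem_map.1 h
        exact ⟨hcopok C' (hHm C' hC'), hcopfresh C' (hHm C' hC')⟩
      rcases List.mem_append.1 h with h | h
      · rw [List.mem_singleton.1 h]
        exact ⟨hcopok G hGm, hcopfresh G hGm⟩
      rcases List.mem_append.1 h with h | h
      · obtain ⟨h1, x, hx, hx', hxC⟩ := hZ3 C h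
        refine ⟨fun e he => ?_, ψ x, hxC, hfresh x (hS G hGm x hx) hx'⟩
        rcases h1 e he with h2 | h2
        · exact hGok e h2
        · exact hcopok G hGm e h2
      · obtain ⟨C', hC', h1, h2⟩ := hu3 C h
        obtain ⟨C'', hC'', rfl⟩ := List.mem_map.1 hC'
        refine ⟨fun e he => hcopok C'' (hHm C'' hC'') e ((h2 e).1 he), ?_⟩
        obtain ⟨w, hw, hw'⟩ := hcopfresh C'' (hHm C'' hC'')
        exact ⟨w, (h1 w).2 hw, hw'⟩)
  refine ⟨T, hT1, ?_, hT3⟩
  rw [hT2, tot_append, tot_append, tot_append, hZ2, show tot undo = _ from hu2]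
  simp only [tot_cons, tot_nil, add_zero]
  have e1 := add_self2 (tot (H.map (List.map ψ)))
  have e2 := add_self2 (ind (G.map ψ))
  calc tot (H.map (List.map ψ)) + (ind (G.map ψ) + (ind G + ind (G.map ψ) +
        tot (H.map (List.map ψ)))) = (tot (H.map (List.map ψ)) + tot (H.map (List.map ψ))) +
        (ind (G.map ψ) + ind (G.map ψ)) + ind G := by abel
    _ = ind G := by rw [e1, e2]; simp

end Pool.Agent.Q179.CR
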