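import Mathlib

/-!
# Replacing cycle reversals by 3-cycle reversals: internal definitions

A cyclic list `l` of vertices stands for the closed walk through its members.  A state is a
function `F : Sym2 V → ZMod 2`; the digraph in the state `F` is the digraph `D` with all edges `e`
with `F e = 1` turned over.
-/

set_option autoImplicit false

namespace Pool.Agent.Q179.CR

open Set Cardinal

universe u v

variable {V : Type u}

/-- The arcs of the path which starts at the first argument and runs through the list. -/
def parcs : V → List V → List (V × V)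
  | _, [] => []
  | a, b :: l => (a, b) :: parcs b l

/-- The arcs of the closed walk through the members of the list. -/
def carcs : List V → List (V × V)
  | [] => []
  | a :: l => parcs a (l ++ [a])

/-- The edges of the path `parcs a l`. -/
def pedges (a : V) (l : List V) : List (Sym2 V) := (parcs a l).map fun p => s(p.1, p.2)

/-- The edges of the closed walk. -/
def medges (l : List V) : List (Sym2 V) := (carcs l).map fun p => s(p.1, p.2)

open Classical in
/-- The edges of the closed walk, counted modulo 2. -/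
noncomputable def ind (l : List V) : Sym2 V → ZMod 2 := fun e => ((medges l).count e : ZMod 2)

/-- `u v` is an arc in the state `F`. -/
def Arc (D : V → V → Prop) (F : Sym2 V → ZMod 2) (u v : V) : Prop :=
  (F s(u, v) = 0 → D u v) ∧ (F s(u, v) ≠ 0 → D v u)

/-- Tournaments. -/
def IsTour (D : V → V → Prop) : Prop :=
  (∀ v, ¬ D v v) ∧ ∀ u v, u ≠ v → (D u v ↔ ¬ D v u)

/-- `l` is a directed cycle in the state `F`. -/
def DC (D : V → V → Prop) (F : Sym2 V → ZMod 2) (l : List V) : Prop :=
  l.Nodup ∧ 3 ≤ l.length ∧ ∀ p ∈ carcs l, Arc D F p.1 p.2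

/-- The total effect of a finite sequence of cycle reversals. -/
noncomputable def tot (T : List (List V)) : Sym2 V → ZMod 2 := (T.map ind).sum

/-- The cycles of the list can be reversed one after the other, beginning in the state `F`. -/
def Val (D : V → V → Prop) : (Sym2 V → ZMod 2) → List (List V) → Prop
  | _, [] => True
  | F, C :: T => DC D F C ∧ Val D (F + ind C) T

/-- The pairs of the cell: both ends are in `Y`, not both are in `X j`, for all `j < k`. -/
def ok (Y : Set V) (X : ℕ → Set V) (k : ℕ) (e : Sym2 V) : Prop :=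
  (∀ v ∈ e, v ∈ Y) ∧ ∀ j < k, ∃ v ∈ e, v ∉ X j

/-- The pairs of the cell which are not inside `K`. -/
def okK (Y : Set V) (X : ℕ → Set V) (k : ℕ) (K : Set V) (e : Sym2 V) : Prop :=
  ok Y X k e ∧ ∃ v ∈ e, v ∉ K

/-- The sequence of sets with the new `k`-th set `B`. -/
def upd (X : ℕ → Set V) (k : ℕ) (B : Set V) : ℕ → Set V := fun j => if j = k then B else X j

/-- `φ` makes a copy of `W` over `A` outside the sets `X j`, `i ≤ j < k`. -/
structure Copy (D : V → V → Prop) (Y : Set V) (X : ℕ → Set V) (k i : ℕ) (A W : Finset V)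
    (φ : V → V) : Prop where
  inj : InjOn φ W
  maps : ∀ w ∈ W, φ w ∈ Y
  avoid : ∀ w ∈ W, ∀ j, i ≤ j → j < k → φ w ∉ X j
  mem : ∀ w ∈ W, ∀ j < i, φ w ∈ X j → w ∈ X j
  inner : ∀ w ∈ W, ∀ w' ∈ W, (D w w' ↔ D (φ w) (φ w'))
  outer : ∀ w ∈ W, ∀ a ∈ A, (D w a ↔ D (φ w) a)

/-- The cell is rich: copies can avoid every set of fewer than `κ` vertices. -/
def Rich (D : V → V → Prop) (Y : Set V) (X : ℕ → Set V) (k : ℕ) (κ : Cardinal.{u}) : Prop :=
  ∀ i < k, ∀ A W : Finset V, A.Nonempty → (↑A : Set V) ⊆ X i ∩ Y → (↑W : Set V) ⊆ Y \ X i →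
    ∀ U : Set V, #U < κ → ∃ φ : V → V, Copy D Y X k i A W φ ∧ ∀ w ∈ W, φ w ∉ U

/-- `G` can be replaced by 3-cycles of the cell which do not have a pair inside `K`, in the state
which is reached by `H`. -/
def Red (D : V → V → Prop) (Y : Set V) (X : ℕ → Set V) (k : ℕ) (K : Set V) (H : List (List V))
    (G : List V) : Prop :=
  ∃ T : List (List V), Val D (tot H) T ∧ tot T = ind G ∧
    ∀ C ∈ T, C.length = 3 ∧ ∀ e ∈ medges C, okK Y X k K e

/-- All cycles of the cell with a vertex outside `K` and the sets `X j`, `i ≤ j < k`, can be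
replaced. -/
def Good (D : V → V → Prop) (Y : Set V) (X : ℕ → Set V) (k : ℕ) (K : Set V) (i : ℕ) : Prop :=
  ∀ (H : List (List V)) (G : List V), Val D 0 H → (∀ C ∈ H, ∀ e ∈ medges C, ok Y X k e) →
    DC D (tot H) G → (∀ e ∈ medges G, okK Y X k K e) →
    (∃ w ∈ G, w ∉ K ∧ ∀ j, i ≤ j → j < k → w ∉ X j) → Red D Y X k K H G

/-- Families of closed walks in which every pair occurs finitely often. -/
def LF {ι : Type v} (c : ι → List V) : Prop := ∀ e, {i | e ∈ medges (c i)}.Finite

/-- The number (modulo 2) of the members before `i` through the pair. -/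
noncomputable def bef {ι : Type v} [LT ι] (c : ι → List V) (i : ι) : Sym2 V → ZMod 2 :=
  fun e => ({j | j < i ∧ e ∈ medges (c j)}.ncard : ZMod 2)

/-- The number (modulo 2) of all members through the pair. -/
noncomputable def all {ι : Type v} (c : ι → List V) : Sym2 V → ZMod 2 :=
  fun e => ({j | e ∈ medges (c j)}.ncard : ZMod 2)

/-- Reversal sequences (indexed by a well-ordered set `ι`). -/
def Fam (D : V → V → Prop) {ι : Type v} [LinearOrder ι] (c : ι → List V) : Prop :=
  LF c ∧ ∀ i, DC D (bef c i) (c i)

/-- `Z` contains all vertices of every cycle which has an edge inside `Z`. -/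
def Clos {ι : Type v} (c : ι → List V) (Z : Set V) : Prop :=
  ∀ i, (∃ e ∈ medges (c i), ∀ v ∈ e, v ∈ Z) → ∀ v ∈ c i, v ∈ Z

/-- There is a reversal sequence which consists of 3-cycles, uses pairs of `E` only, and turns over
the pairs `e` of `E` with `g e = 1` only. -/
def Sol (D : V → V → Prop) (E : Set (Sym2 V)) (g : Sym2 V → ZMod 2) : Prop :=
  ∃ (τ : Type u) (_ : LinearOrder τ) (_ : WellFoundedLT τ) (t : τ → List V),
    Fam D t ∧ (∀ i, (t i).length = 3) ∧ (∀ i, ∀ e ∈ medges (t i), e ∈ E) ∧
      ∀ e ∈ E, all t e = g e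

/-! ### Basic facts -/

@[simp] theorem tot_nil : tot ([] : List (List V)) = 0 := rfl

@[simp] theorem tot_cons (C : List V) (T : List (List V)) : tot (C :: T) = ind C + tot T := by
  simp [tot]

theorem tot_append (T₁ T₂ : List (List V)) : tot (T₁ ++ T₂) = tot T₁ + tot T₂ := by
  simp [tot, List.map_append, List.sum_append]

theorem Val_append (D : V → V → Prop) (T₁ T₂ : List (List V)) (F : Sym2 V → ZMod 2) :
    Val D F (T₁ ++ T₂) ↔ Val D F T₁ ∧ Val D (F + tot T₁) T₂ := by
  induction T₁ generalizing F with
  | nil => simp [Val]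
  | cons C T ih => simp only [List.cons_append, Val, ih, tot_cons, and_assoc, add_assoc]

theorem Arc_congr {D : V → V → Prop} {F F' : Sym2 V → ZMod 2} {u v : V}
    (h : F s(u, v) = F' s(u, v)) : Arc D F u v ↔ Arc D F' u v := by
  simp [Arc, h]

theorem DC_congr {D : V → V → Prop} {F F' : Sym2 V → ZMod 2} {l : List V}
    (h : ∀ e ∈ medges l, F e = F' e) : DC D F l ↔ DC D F' l := by
  unfold DC
  refine and_congr_right fun _ => and_congr_right fun _ => ?_
  refine forall_congr' fun p => ?_
  refine forall_congr' fun hp => ?_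
  exact Arc_congr (h _ (List.mem_map.2 ⟨p, hp, rfl⟩))

theorem Val_congr {D : V → V → Prop} {F F' : Sym2 V → ZMod 2} {T : List (List V)}
    (h : ∀ C ∈ T, ∀ e ∈ medges C, F e = F' e) : Val D F T ↔ Val D F' T := by
  induction T generalizing F F' with
  | nil => simp [Val]
  | cons C T ih =>
    unfold Val
    rw [DC_congr (h C (by simp))]
    refine and_congr_right fun _ => ih fun C' hC' e he => ?_
    simp only [Pi.add_apply]
    rw [h C' (List.mem_cons_of_mem _ hC') e he]

theorem parcs_append (a : V) (l m : List V) :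
    parcs a (l ++ m) = parcs a l ++ parcs ((a :: l).getLast (by simp)) m := by
  induction l generalizing a with
  | nil => simp [parcs]
  | cons b l ih => simp [parcs, ih]

theorem carcs_eq_zip (l : List V) : carcs l = l.zip (l.rotate 1) := by
  cases l with
  | nil => rfl
  | cons a l =>
    simp only [carcs, List.rotate_cons_succ, List.rotate_zero]
    have : ∀ (a : V) (l : List V) (c : V), parcs a (l ++ [c]) = (a :: l).zip (l ++ [c]) := by
      intro a l c
      induction l generalizing a with
      | nil => simp [parcs]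
      | cons b l ih => simp [parcs, ih]
    exact this a l a

theorem ind_eq_zero {l : List V} {e : Sym2 V} (h : e ∉ medges l) : ind l e = 0 := by
  classical
  unfold ind
  rw [List.count_eq_zero_of_not_mem h]
  rfl

end Pool.Agent.Q179.CR
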