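import Pool.Agent.Q179.CR.Flat

/-!
# Enumeration of a countable family in finite blocks
-/

set_option autoImplicit false

namespace Pool.Agent.Q179.CR

open Set Cardinal

universe u v

theorem Val_of_splits {V : Type u} {D : V → V → Prop} {ι : Type v} {c : ι → List V} (l : List ι)
    (F : Sym2 V → ZMod 2)
    (h : ∀ l₁ i l₂, l = l₁ ++ i :: l₂ → DC D (F + tot (l₁.map c)) (c i)) :
    Val D F (l.map c) := by
  induction l generalizing F with
  | nil => trivial
  | cons a l ih =>
    refine ⟨?_, ih _ fun l₁ i l₂ hl => ?_⟩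
    · have := h [] a l rfl
      simpa using this
    · have := h (a :: l₁) i l₂ (by rw [hl]; rfl)
      rwa [List.map_cons, tot_cons, ← add_assoc] at this

theorem tot_eq_ncard {V : Type u} {ι : Type v} {c : ι → List V}
    (hc : ∀ i, (c i).Nodup ∧ 3 ≤ (c i).length) (l : List ι) (hl : l.Nodup) (e : Sym2 V) :
    tot (l.map c) e = (({j | j ∈ l ∧ e ∈ medges (c j)}.ncard : ℕ) : ZMod 2) := by
  induction l with
  | nil => simp
  | cons a l ih =>
    rw [List.nodup_cons] at hl
    rw [List.map_cons, tot_cons, Pi.add_apply, ih hl.2]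
    by_cases h : e ∈ medges (c a)
    · have h1 : {j | j ∈ a :: l ∧ e ∈ medges (c j)} = insert a {j | j ∈ l ∧ e ∈ medges (c j)} := by
        ext j
        simp only [List.mem_cons, mem_ofPred_eq, mem_insert_iff]
        constructor
        · rintro ⟨h2 | h2, h3⟩
          · exact Or.inl h2
          · exact Or.inr ⟨h2, h3⟩
        · rintro (h2 | ⟨h2, h3⟩)
          · subst h2; exact ⟨Or.inl rfl, h⟩
          · exact ⟨Or.inr h2, h3⟩
      rw [h1, ncard_insert_of_notMem (fun h2 => hl.1 h2.1)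
        ((List.finite_toSet l).subset fun j hj => hj.1), ind_eq_one (hc a).1 (hc a).2 h]
      push_cast
      rw [add_comm]
    · have h1 : {j | j ∈ a :: l ∧ e ∈ medges (c j)} = {j | j ∈ l ∧ e ∈ medges (c j)} := by
        ext j
        simp only [List.mem_cons, mem_ofPred_eq]
        constructor
        · rintro ⟨h2 | h2, h3⟩
          · subst h2; exact absurd h3 h
          · exact ⟨h2, h3⟩
        · rintro ⟨h2, h3⟩
          exact ⟨Or.inr h2, h3⟩
      rw [h1, ind_eq_zero h, zero_add]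

theorem t_ENUM : S_ENUM.{u, v} := by
  intro V D ι _ _ c hF J hJ hcl
  have hc : ∀ i, (c i).Nodup ∧ 3 ≤ (c i).length := fun i => ⟨(hF.2 i).1, (hF.2 i).2.1⟩
  let R : ι → ι → Prop := fun i j => j < i ∧ ∃ e ∈ medges (c i), e ∈ medges (c j)
  have hpar : ∀ i, {j | R i j}.Finite := by
    intro i
    have h1 : (⋃ e ∈ {e | e ∈ medges (c i)}, {j | e ∈ medges (c j)}).Finite :=
      (List.finite_toSet _).biUnion fun e _ => hF.1 e
    refine h1.subset ?_
    rintro j ⟨_, e, he, he'⟩
    exact mem_biUnion (x := e) he he'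
  have hanc : ∀ i, {j | Relation.ReflTransGen R i j}.Finite := by
    intro i
    induction i using WellFoundedLT.induction with
    | _ i ih =>
      have h1 : ({i} ∪ ⋃ j ∈ {j | R i j}, {k | Relation.ReflTransGen R j k}).Finite :=
        (finite_singleton i).union ((hpar i).biUnion fun j hj => ih j hj.1)
      refine h1.subset ?_
      intro k hk
      rcases Relation.ReflTransGen.cases_head hk with h | ⟨j, h2, h3⟩
      · exact Or.inl h.symm
      · exact Or.inr (mem_biUnion (x := j) h2 h3)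
  have hancJ : ∀ i ∈ J, ∀ j, Relation.ReflTransGen R i j → j ∈ J := by
    intro i hi j hij
    induction hij with
    | refl => exact hi
    | tail _ h2 ih => exact hcl _ ih _ h2.2
  obtain ⟨f, hf⟩ := countable_iff_exists_injOn.1 hJ
  let B : ℕ → Set ι := fun n => {j | ∃ i ∈ J, f i < n ∧ Relation.ReflTransGen R i j}
  have hBfin : ∀ n, (B n).Finite := by
    intro n
    have h1 : {i | i ∈ J ∧ f i < n}.Finite := by
      refine Set.Finite.of_finite_image (f := f) ((finite_lt_nat n).subset ?_) fun a ha b hb =>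
        hf ha.1 hb.1
      rintro _ ⟨i, hi, rfl⟩
      exact hi.2
    refine (h1.biUnion fun i _ => hanc i).subset ?_
    rintro j ⟨i, h2, h3, h4⟩
    exact mem_biUnion (x := i) ⟨h2, h3⟩ h4
  have hBmono : ∀ m n, m ≤ n → B m ⊆ B n := by
    rintro m n hmn j ⟨i, h1, h2, h3⟩
    exact ⟨i, h1, h2.trans_le hmn, h3⟩
  have hBJ : ∀ n, B n ⊆ J := by
    rintro n j ⟨i, h1, _, h3⟩
    exact hancJ i h1 j h3
  have hBpar : ∀ n i j, i ∈ B n → R i j → j ∈ B n := by
    rintro n i j ⟨k, h1, h2, h3⟩ h4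
    exact ⟨k, h1, h2, h3.tail h4⟩
  have hB0 : B 0 = ∅ := by
    ext j
    simp only [B, mem_ofPred_eq, mem_empty_iff_false, iff_false]
    rintro ⟨i, _, h, _⟩
    exact Nat.not_lt_zero _ h
  have hex : ∀ n, ∃ l : List ι, l.Nodup ∧ l.Pairwise (· < ·) ∧ ∀ i, i ∈ l ↔ i ∈ B (n + 1) \ B n := by
    intro n
    have h1 : (B (n + 1) \ B n).Finite := (hBfin _).subset sdiff_subset
    refine ⟨h1.toFinset.sort (· ≤ ·), Finset.sort_nodup _ _, ?_, fun i => by simp⟩
    exact (Finset.sortedLT_sort _).pairwise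
  choose L hL1 hL2 hL3 using hex
  have hS : ∀ n e, (∑ m ∈ Finset.range n, tot ((L m).map c)) e =
      (({j | j ∈ B n ∧ e ∈ medges (c j)}.ncard : ℕ) : ZMod 2) := by
    intro n e
    induction n with
    | zero => simp [hB0]
    | succ n ih =>
      rw [Finset.sum_range_succ, Pi.add_apply, ih, tot_eq_ncard hc _ (hL1 n), ← Nat.cast_add]
      congr 1
      have hf1 : {j | j ∈ B n ∧ e ∈ medges (c j)}.Finite := (hBfin n).subset fun j hj => hj.1
      have hf2 : {j | j ∈ L n ∧ e ∈ medges (c j)}.Finite :=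
        (List.finite_toSet (L n)).subset fun j hj => hj.1
      rw [← ncard_union_eq ?_ hf1 hf2]
      · congr 1
        ext j
        simp only [mem_union, mem_ofPred_eq, hL3, mem_sdiff]
        constructor
        · rintro (⟨h1, h2⟩ | ⟨⟨h1, _⟩, h2⟩)
          · exact ⟨hBmono _ _ (Nat.le_succ n) h1, h2⟩
          · exact ⟨h1, h2⟩
        · rintro ⟨h1, h2⟩
          by_cases h3 : j ∈ B n
          · exact Or.inl ⟨h3, h2⟩
          · exact Or.inr ⟨⟨h1, h3⟩, h2⟩
      · rw [Set.disjoint_left]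
        rintro j ⟨h1, _⟩ ⟨h2, _⟩
        exact ((hL3 n j).1 h2).2 h1
  refine ⟨L, ?_, fun n i hi => hBJ _ ((hL3 n i).1 hi).1, hL1, ?_⟩
  · intro i hi
    have hex' : ∃ n, i ∈ B n := ⟨f i + 1, i, hi, Nat.lt_succ_self _, Relation.ReflTransGen.refl⟩
    classical
    obtain ⟨n, hn, hmin⟩ : ∃ n, i ∈ B n ∧ ∀ m < n, i ∉ B m :=
      ⟨Nat.find hex', Nat.find_spec hex', fun m hm => Nat.find_min hex' hm⟩
    cases n with
    | zero => rw [hB0] at hn; exact absurd hn (notMem_empty _)
    | succ n =>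
      refine ⟨n, (hL3 n i).2 ⟨hn, hmin n (Nat.lt_succ_self n)⟩, fun m hm => ?_⟩
      have h1 := (hL3 m i).1 hm
      have h2 : ¬ m + 1 < n + 1 := fun h => hmin _ h h1.1
      have h3 : ¬ n + 1 ≤ m := fun h => h1.2 (hBmono _ _ h hn)
      omega
  · intro n
    refine Val_of_splits _ _ fun l₁ i l₂ hl => ?_
    have hi : i ∈ B (n + 1) \ B n := by
      rw [← hL3, hl]; simp
    have hpw := hL2 n
    rw [hl, List.pairwise_append, List.pairwise_cons] at hpw
    obtain ⟨hp1, ⟨hp2, hp3⟩, hp4⟩ := hpw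
    have hnd : l₁.Nodup := by
      have := hL1 n
      rw [hl] at this
      exact this.of_append_left
    refine (DC_congr fun e he => ?_).1 (hF.2 i)
    rw [Pi.add_apply, hS, tot_eq_ncard hc _ hnd, ← Nat.cast_add]
    unfold bef
    congr 1
    have hf1 : {j | j ∈ B n ∧ e ∈ medges (c j)}.Finite := (hBfin n).subset fun j hj => hj.1
    have hf2 : {j | j ∈ l₁ ∧ e ∈ medges (c j)}.Finite :=
      (List.finite_toSet l₁).subset fun j hj => hj.1
    rw [← ncard_union_eq ?_ hf1 hf2]
    · congr 1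
      ext j
      simp only [mem_union, mem_ofPred_eq]
      constructor
      · rintro ⟨h1, h2⟩
        have h3 : j ∈ B (n + 1) := hBpar _ i j hi.1 ⟨h1, e, he, h2⟩
        by_cases h4 : j ∈ B n
        · exact Or.inl ⟨h4, h2⟩
        · right
          have h5 : j ∈ L n := (hL3 n j).2 ⟨h3, h4⟩
          rw [hl, List.mem_append, List.mem_cons] at h5
          rcases h5 with h5 | h5 | h5
          · exact ⟨h5, h2⟩
          · exact absurd h1 (by rw [h5]; exact lt_irrefl _)
          · exact absurd (hp2 j h5) (not_lt.2 h1.le)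
      · rintro (⟨h1, h2⟩ | ⟨h1, h2⟩)
        · refine ⟨?_, h2⟩
          rcases lt_trichotomy j i with h | h | h
          · exact h
          · subst h; exact absurd h1 hi.2
          · exact absurd (hBpar n j i h1 ⟨h, e, h2, he⟩) hi.2
        · exact ⟨hp4 j h1 i (by simp), h2⟩
    · rw [Set.disjoint_left]
      rintro j ⟨h1, _⟩ ⟨h2, _⟩
      have h5 : j ∈ L n := by rw [hl]; simp [h2]
      exact ((hL3 n j).1 h5).2 h1

end Pool.Agent.Q179.CR
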