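import Pool.Agent.Q179.CR.Stm

/-!
# From ordinal-indexed reversal sequences to families and back
-/

set_option autoImplicit false

namespace Pool.Agent.Q179.CR

open Set Cardinal Ordinal

universe u w

variable {V : Type u}

/-- the arcs of the cyclic sequence -/
def arcs (C : List V) : List (V × V) := C.zip (C.rotate 1)

/-- directed cycles -/
def IsDirectedCycle (D : V → V → Prop) (C : List V) : Prop :=
  C.Nodup ∧ 3 ≤ C.length ∧ ∀ p ∈ arcs C, D p.1 p.2

/-- reversal of a cycle -/
def reversal (D : V → V → Prop) (C : List V) : V → V → Prop :=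
  fun x y => (y, x) ∈ arcs C ∨ (D x y ∧ (x, y) ∉ arcs C)

/-- reversal sequences -/
structure IsReversalSequence (D : V → V → Prop) (α : Ordinal.{w}) (c : Ordinal.{w} → List V)
    (E : Ordinal.{w} → V → V → Prop) : Prop where
  zero : E 0 = D
  cycle : ∀ β < α, IsDirectedCycle (E β) (c β)
  succ : ∀ β < α, E (β + 1) = reversal (E β) (c β)
  finite : ∀ β ≤ α, Order.IsSuccLimit β → ∀ x y,
    {γ | γ < β ∧ ((x, y) ∈ arcs (c γ) ∨ (y, x) ∈ arcs (c γ))}.Finite
  limit : ∀ β ≤ α, Order.IsSuccLimit β → ∀ x y,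
    ∃ ν < β, ∀ ξ, ν ≤ ξ → ξ < β → (E β x y ↔ E ξ x y)

theorem mem_medges {C : List V} {x y : V} :
    s(x, y) ∈ medges C ↔ (x, y) ∈ arcs C ∨ (y, x) ∈ arcs C := by
  unfold medges arcs
  rw [carcs_eq_zip]
  simp only [List.mem_map, Prod.exists, Sym2.eq_iff]
  constructor
  · rintro ⟨a, b, h, ⟨rfl, rfl⟩ | ⟨rfl, rfl⟩⟩
    · exact Or.inl h
    · exact Or.inr h
  · rintro (h | h)
    · exact ⟨_, _, h, Or.inl ⟨rfl, rfl⟩⟩
    · exact ⟨_, _, h, Or.inr ⟨rfl, rfl⟩⟩

theorem Arc_irrefl {D : V → V → Prop} (hD : IsTour D) (F : Sym2 V → ZMod 2) (x : V) :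
    ¬ Arc D F x x := by
  intro h
  by_cases h0 : F s(x, x) = 0
  · exact hD.1 x (h.1 h0)
  · exact hD.1 x (h.2 h0)

theorem Arc_swap {D : V → V → Prop} (hD : IsTour D) (F : Sym2 V → ZMod 2) {x y : V}
    (hxy : x ≠ y) : Arc D F x y ↔ ¬ Arc D F y x := by
  unfold Arc
  rw [Sym2.eq_swap (a := y) (b := x)]
  have h := hD.2 x y hxy
  by_cases h0 : F s(x, y) = 0 <;> simp [h0] <;> tauto

theorem zmod2 (a : ZMod 2) : a = 0 ∨ a = 1 := by
  revert a; decide

theorem Arc_flip {D : V → V → Prop} (F F' : Sym2 V → ZMod 2) {x y : V}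
    (h : F' s(x, y) = F s(x, y) + 1) : Arc D F' x y ↔ Arc D F y x := by
  unfold Arc
  rw [Sym2.eq_swap (a := y) (b := x), h]
  rcases zmod2 (F s(x, y)) with h0 | h0
  · rw [h0]; simp
  · rw [h0]
    have : (1 : ZMod 2) + 1 = 0 := by decide
    simp [this]

/-- the effect of one reversal -/
theorem reversal_Arc {D : V → V → Prop} (hD : IsTour D) (F F' : Sym2 V → ZMod 2) (C : List V)
    (hC : IsDirectedCycle (Arc D F) C) (h1 : ∀ e ∈ medges C, F' e = F e + 1)
    (h0 : ∀ e, e ∉ medges C → F' e = F e) : reversal (Arc D F) C = Arc D F' := by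
  funext x y
  apply propext
  unfold reversal
  by_cases hm : s(x, y) ∈ medges C
  · have hf : Arc D F' x y ↔ Arc D F y x := Arc_flip F F' (h1 _ hm)
    rw [hf]
    rcases mem_medges.1 hm with h | h
    · have hA : Arc D F x y := hC.2.2 _ h
      have hne : x ≠ y := fun e => Arc_irrefl hD F x (by rw [← e] at hA; exact hA)
      have hB : ¬ Arc D F y x := (Arc_swap hD F hne).1 hA
      constructor
      · rintro (h' | h')
        · exact hC.2.2 _ h'
        · exact absurd h h'.2
      · intro h'; exact absurd h' hB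
    · constructor
      · intro _; exact hC.2.2 _ h
      · intro _; exact Or.inl h
  · rw [mem_medges, not_or] at hm
    have hm' : s(x, y) ∉ medges C := by rw [mem_medges, not_or]; exact hm
    rw [Arc_congr (h0 _ hm')]
    constructor
    · rintro (h' | h')
      · exact absurd h' hm.2
      · exact h'.1
    · intro h'; exact Or.inr ⟨h', hm.1⟩

theorem DC_iff {D : V → V → Prop} {F : Sym2 V → ZMod 2} {C : List V} :
    DC D F C ↔ IsDirectedCycle (Arc D F) C := by
  unfold DC IsDirectedCycle arcs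
  rw [carcs_eq_zip]

/-- members before `β` through the pair -/
def NN (c : Ordinal.{w} → List V) (β : Ordinal.{w}) (e : Sym2 V) : Set Ordinal.{w} :=
  {γ | γ < β ∧ e ∈ medges (c γ)}

/-- parity of the number of members before `β` through the pair -/
noncomputable def NF (c : Ordinal.{w} → List V) (β : Ordinal.{w}) : Sym2 V → ZMod 2 :=
  fun e => ((NN c β e).ncard : ZMod 2)

open Classical in
theorem NN_succ (c : Ordinal.{w} → List V) (β : Ordinal.{w}) (e : Sym2 V) :
    NN c (β + 1) e = if e ∈ medges (c β) then insert β (NN c β e) else NN c β e := by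
  ext γ
  split_ifs with h
  · simp only [NN, mem_ofPred_eq, mem_insert_iff, Order.lt_add_one_iff]
    constructor
    · rintro ⟨h1, h2⟩
      rcases h1.eq_or_lt with h3 | h3
      · exact Or.inl h3
      · exact Or.inr ⟨h3, h2⟩
    · rintro (rfl | ⟨h1, h2⟩)
      · exact ⟨le_rfl, h⟩
      · exact ⟨h1.le, h2⟩
  · simp only [NN, mem_ofPred_eq, Order.lt_add_one_iff]
    constructor
    · rintro ⟨h1, h2⟩
      rcases h1.eq_or_lt with h3 | h3
      · subst h3; exact absurd h2 h
      · exact ⟨h3, h2⟩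
    · rintro ⟨h1, h2⟩
      exact ⟨h1.le, h2⟩

theorem NF_succ_mem (c : Ordinal.{w} → List V) (β : Ordinal.{w}) {e : Sym2 V}
    (hf : (NN c β e).Finite) (h : e ∈ medges (c β)) : NF c (β + 1) e = NF c β e + 1 := by
  unfold NF
  rw [NN_succ, if_pos h, ncard_insert_of_notMem (by simp [NN]) hf]
  push_cast
  rfl

theorem NF_succ_notMem (c : Ordinal.{w} → List V) (β : Ordinal.{w}) {e : Sym2 V}
    (h : e ∉ medges (c β)) : NF c (β + 1) e = NF c β e := by
  unfold NF
  rw [NN_succ, if_neg h]

/-- a finite set of ordinals below a limit ordinal is bounded below it -/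
theorem exists_bound {β : Ordinal.{w}} (hβ : Order.IsSuccLimit β) {S : Set Ordinal.{w}}
    (hS : S.Finite) (h : ∀ γ ∈ S, γ < β) : ∃ ν < β, ∀ γ ∈ S, γ < ν := by
  induction S, hS using Set.Finite.induction_on with
  | empty =>
    exact ⟨0, hβ.bot_lt, by simp⟩
  | @insert a S ha hS ih =>
    obtain ⟨ν, hν, h1⟩ := ih fun γ hγ => h γ (mem_insert_of_mem _ hγ)
    have ha' := h a (mem_insert _ _)
    refine ⟨max ν (Order.succ a), max_lt hν (hβ.succ_lt ha'), ?_⟩
    intro γ hγ
    rcases mem_insert_iff.1 hγ with rfl | hγ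
    · exact lt_max_of_lt_right (Order.lt_succ _)
    · exact lt_max_of_lt_left (h1 γ hγ)

theorem run_eq {D : V → V → Prop} (hD : IsTour D) {α : Ordinal.{w}} {c : Ordinal.{w} → List V}
    {E : Ordinal.{w} → V → V → Prop} (h : IsReversalSequence D α c E) :
    ∀ β ≤ α, (∀ e, (NN c β e).Finite) ∧ E β = Arc D (NF c β) := by
  intro β
  induction β using Ordinal.limitRecOn with
  | zero =>
    intro _
    have h0 : ∀ e, NN c 0 e = ∅ := by
      intro e
      ext γ
      simp [NN]
    refine ⟨fun e => by rw [h0]; exact finite_empty, ?_⟩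
    rw [h.zero]
    funext x y
    apply propext
    unfold Arc NF
    rw [h0]
    simp
  | add_one β ih =>
    intro hβ
    have hβ' : β < α := lt_of_lt_of_le (lt_add_one β) hβ
    obtain ⟨h1, h2⟩ := ih hβ'.le
    refine ⟨fun e => ?_, ?_⟩
    · rw [NN_succ]
      split_ifs
      · exact (h1 e).insert _
      · exact h1 e
    · rw [h.succ β hβ', h2]
      have hc := h.cycle β hβ'
      rw [h2] at hc
      exact reversal_Arc hD _ _ _ hc (fun e he => NF_succ_mem c β (h1 e) he)
        fun e he => NF_succ_notMem c β he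
  | limit β hl ih =>
    intro hβ
    have hfin : ∀ e, (NN c β e).Finite := by
      intro e
      induction e using Sym2.inductionOn with
      | hf x y =>
        refine (h.finite β hβ hl x y).subset ?_
        rintro γ ⟨h1, h2⟩
        exact ⟨h1, mem_medges.1 h2⟩
    refine ⟨hfin, ?_⟩
    funext x y
    apply propext
    obtain ⟨ν, hν, h1⟩ := h.limit β hβ hl x y
    obtain ⟨ν', hν', h2⟩ := exists_bound hl (hfin s(x, y)) fun γ hγ => hγ.1
    have h3 : max ν ν' < β := max_lt hν hν'
    rw [h1 _ (le_max_left _ _) h3, (ih _ h3 (h3.le.trans hβ)).2]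
    apply Arc_congr
    unfold NF
    congr 2
    ext γ
    constructor
    · rintro ⟨h4, h5⟩
      exact ⟨h4.trans h3, h5⟩
    · rintro ⟨h4, h5⟩
      exact ⟨lt_max_of_lt_right (h2 γ ⟨h4, h5⟩), h5⟩

/-- every reversal sequence gives a family -/
theorem to_fam {D : V → V → Prop} (hD : IsTour D) {α : Ordinal.{w}} {c : Ordinal.{w} → List V}
    {E : Ordinal.{w} → V → V → Prop} (h : IsReversalSequence D α c E) :
    ∃ c' : α.ToType → List V, Fam D c' ∧ E α = Arc D (all c') := by
  set c' : α.ToType → List V := fun i => c (i.toOrd : Ordinal) with hc'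
  have hinj : Function.Injective fun i : α.ToType => (i.toOrd : Ordinal) := by
    intro i j hij
    exact Ordinal.ToType.mk.symm.injective (Subtype.ext hij)
  have hall : ∀ e, (fun i : α.ToType => (i.toOrd : Ordinal)) '' {i | e ∈ medges (c' i)} =
      NN c α e := by
    intro e
    ext γ
    constructor
    · rintro ⟨i, hi, rfl⟩
      exact ⟨i.toOrd.2, hi⟩
    · rintro ⟨h1, h2⟩
      refine ⟨Ordinal.ToType.mk ⟨γ, h1⟩, ?_, ?_⟩
      · show e ∈ medges (c _)
        simpa using h2
      · simp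
  have hbef : ∀ (i : α.ToType) e, (fun i : α.ToType => (i.toOrd : Ordinal)) ''
      {j | j < i ∧ e ∈ medges (c' j)} = NN c (i.toOrd : Ordinal) e := by
    intro i e
    ext γ
    constructor
    · rintro ⟨j, ⟨hj, hj'⟩, rfl⟩
      refine ⟨?_, hj'⟩
      exact Subtype.coe_lt_coe.2 (Ordinal.ToType.mk.symm.lt_iff_lt.2 hj)
    · rintro ⟨h1, h2⟩
      have h3 : γ < α := h1.trans i.toOrd.2
      refine ⟨Ordinal.ToType.mk ⟨γ, h3⟩, ⟨?_, ?_⟩, ?_⟩
      · rw [← Ordinal.ToType.mk.symm.lt_iff_lt, OrderIso.symm_apply_apply]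
        exact h1
      · show e ∈ medges (c _)
        simpa using h2
      · simp
  have hbef' : ∀ i : α.ToType, bef c' i = NF c (i.toOrd : Ordinal) := by
    intro i
    funext e
    unfold bef NF
    rw [← hbef i e, ncard_image_of_injective _ hinj]
  refine ⟨c', ⟨?_, ?_⟩, ?_⟩
  · intro e
    have h1 := ((run_eq hD h α le_rfl).1 e)
    rw [← hall e] at h1
    exact h1.of_finite_image hinj.injOn
  · intro i
    rw [DC_iff, hbef' i, ← (run_eq hD h _ i.toOrd.2.le).2]
    exact h.cycle _ i.toOrd.2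
  · rw [(run_eq hD h α le_rfl).2]
    congr 1
    funext e
    unfold all NF
    rw [← hall e, ncard_image_of_injective _ hinj]

theorem mem_carcs_pos {C : List V} (h : 3 ≤ C.length) : ∃ e, e ∈ medges C := by
  match C, h with
  | a :: b :: l, _ =>
    exact ⟨s(a, b), by simp [medges, carcs, parcs]⟩

/-- the index set of a family can be taken in the universe of the vertices -/
theorem shrink_fam {D : V → V → Prop} {ι : Type w} [LinearOrder ι] [WellFoundedLT ι]
    {c : ι → List V} (h : Fam D c) :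
    ∃ (τ : Type u) (_ : LinearOrder τ) (_ : WellFoundedLT τ) (t : τ → List V),
      Fam D t ∧ all t = all c := by
  classical
  choose g hg using fun i => mem_carcs_pos (h.2 i).2.1
  have hinj : ∀ e, ∃ f : {i | e ∈ medges (c i)} → ℕ, Function.Injective f := by
    intro e
    have := (h.1 e).countable.to_subtype
    exact exists_injective_nat _
  choose f hf using hinj
  have : Small.{u} ι := by
    refine small_of_injective (β := Sym2 V × ℕ) (f := fun i => (g i, f (g i) ⟨i, hg i⟩)) ?_
    intro i j hij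
    simp only [Prod.mk.injEq] at hij
    obtain ⟨h1, h2⟩ := hij
    have key : ∀ (e e' : Sym2 V) (he : e = e') (hi : e ∈ medges (c i)) (hj : e' ∈ medges (c j)),
        f e ⟨i, hi⟩ = f e' ⟨j, hj⟩ → i = j := by
      rintro e _ rfl hi hj h3
      have := hf e h3
      exact congrArg Subtype.val this
    exact key _ _ h1 _ _ h2
  have o : Shrink.{u} ι ≃o ι := (orderIsoShrink.{u} ι).symm
  refine ⟨Shrink.{u} ι, inferInstance, inferInstance, fun i => c (o i), ⟨?_, ?_⟩, ?_⟩
  · intro e
    exact Set.Finite.preimage (f := fun i : Shrink.{u} ι => o i) o.injective.injOn (h.1 e)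
  · intro i
    have h1 := h.2 (o i)
    have h2 : bef (fun i => c (o i)) i = bef c (o i) := by
      funext e
      unfold bef
      rw [← ncard_image_of_injective _ o.injective]
      congr 2
      ext j
      constructor
      · rintro ⟨k, ⟨h3, h4⟩, rfl⟩
        exact ⟨o.lt_iff_lt.2 h3, h4⟩
      · rintro ⟨h3, h4⟩
        refine ⟨o.symm j, ⟨?_, ?_⟩, o.apply_symm_apply j⟩
        · rw [← o.lt_iff_lt, o.apply_symm_apply]; exact h3
        · simpa using h4
    rw [h2]
    exact h1
  · funext e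
    unfold all
    rw [← ncard_image_of_injective _ o.injective]
    congr 2
    ext j
    constructor
    · rintro ⟨k, h4, rfl⟩
      exact h4
    · intro h4
      exact ⟨o.symm j, by simpa using h4, o.apply_symm_apply j⟩

/-- every family gives a reversal sequence -/
theorem of_fam {D : V → V → Prop} (hD : IsTour D) {τ : Type u} [LinearOrder τ] [WellFoundedLT τ]
    {t : τ → List V} (h : Fam D t) (h3 : ∀ i, (t i).length = 3) :
    ∃ (α : Ordinal.{u}) (c : Ordinal.{u} → List V) (E : Ordinal.{u} → V → V → Prop),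
      IsReversalSequence D α c E ∧ (∀ β < α, (c β).length = 3) ∧ E α = Arc D (all t) := by
  classical
  set α : Ordinal.{u} := Ordinal.type (α := τ) (· < ·) with hα
  set c : Ordinal.{u} → List V := fun β => if hβ : β < α then t (enum (α := τ) (· < ·) ⟨β, hβ⟩)
    else [] with hc
  have hcβ : ∀ β (hβ : β < α), c β = t (enum (α := τ) (· < ·) ⟨β, hβ⟩) := by
    intro β hβ
    simp [hc, hβ]
  have hN : ∀ β e, β ≤ α → NN c β e =
      (fun i : τ => typein (α := τ) (· < ·) i) '' {j | typein (α := τ) (· < ·) j < β ∧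
        e ∈ medges (t j)} := by
    intro β e hβ
    ext γ
    constructor
    · rintro ⟨h1, h2⟩
      have h4 : γ < α := h1.trans_le hβ
      rw [hcβ γ h4] at h2
      refine ⟨enum (α := τ) (· < ·) ⟨γ, h4⟩, ⟨?_, h2⟩, ?_⟩
      · rw [typein_enum]; exact h1
      · show typein (α := τ) (· < ·) _ = γ
        rw [typein_enum]
    · rintro ⟨j, ⟨h1, h2⟩, rfl⟩
      have h4 : typein (α := τ) (· < ·) j < α := typein_lt_type _ j
      refine ⟨h1, ?_⟩
      show e ∈ medges (c (typein (α := τ) (· < ·) j))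
      rw [hcβ _ h4, enum_typein]
      exact h2
  have hinj : Function.Injective fun i : τ => typein (α := τ) (· < ·) i :=
    typein_injective (α := τ) (· < ·)
  have hNfin : ∀ β e, β ≤ α → (NN c β e).Finite := by
    intro β e hβ
    rw [hN β e hβ]
    exact ((h.1 e).subset fun j hj => hj.2).image _
  have hFi : ∀ (i : τ), NF c (typein (α := τ) (· < ·) i) = bef t i := by
    intro i
    funext e
    unfold NF bef
    rw [hN _ e (typein_lt_type _ i).le, ncard_image_of_injective _ hinj]
    congr 2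
    ext j
    simp
  have hcyc : ∀ β < α, IsDirectedCycle (Arc D (NF c β)) (c β) := by
    intro β hβ
    have h5 := h.2 (enum (α := τ) (· < ·) ⟨β, hβ⟩)
    rw [DC_iff, ← hFi, typein_enum, ← hcβ β hβ] at h5
    exact h5
  refine ⟨α, c, fun β => Arc D (NF c β), ⟨?_, hcyc, ?_, ?_, ?_⟩, ?_, ?_⟩
  · funext x y
    apply propext
    have h0 : NN c 0 s(x, y) = ∅ := by
      ext γ
      simp [NN]
    unfold Arc NF
    rw [h0]
    simp
  · intro β hβ
    show Arc D (NF c (β + 1)) = reversal (Arc D (NF c β)) (c β)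
    rw [reversal_Arc hD (NF c β) (NF c (β + 1)) (c β) (hcyc β hβ)
      (fun e he => NF_succ_mem c β (hNfin β e hβ.le) he) fun e he => NF_succ_notMem c β he]
  · intro β hβ _ x y
    refine (hNfin β s(x, y) hβ).subset ?_
    rintro γ ⟨h1, h2⟩
    exact ⟨h1, mem_medges.2 h2⟩
  · intro β hβ hl x y
    obtain ⟨ν, hν, h2⟩ := exists_bound hl (hNfin β s(x, y) hβ) fun γ hγ => hγ.1
    refine ⟨ν, hν, fun ξ h1 h4 => ?_⟩
    apply Arc_congr
    unfold NF
    congr 2
    ext γ
    constructor
    · rintro ⟨h5, h6⟩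
      exact ⟨(h2 γ ⟨h5, h6⟩).trans_le h1, h6⟩
    · rintro ⟨h5, h6⟩
      exact ⟨h5.trans h4, h6⟩
  · intro β hβ
    rw [hcβ β hβ]
    exact h3 _
  · show Arc D (NF c α) = Arc D (all t)
    congr 1
    funext e
    unfold NF all
    rw [hN α e le_rfl, ncard_image_of_injective _ hinj]
    congr 2
    ext j
    simp only [mem_ofPred_eq, and_iff_right_iff_imp]
    intro _
    exact typein_lt_type _ j

/-- the final theorem from `S_MAIN` -/
theorem final (hM : S_MAIN.{u}) {D : V → V → Prop} (hD : IsTour D) {α : Ordinal.{w}}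
    {c : Ordinal.{w} → List V} {E : Ordinal.{w} → V → V → Prop}
    (h : IsReversalSequence D α c E) :
    ∃ (α' : Ordinal.{u}) (c' : Ordinal.{u} → List V) (E' : Ordinal.{u} → V → V → Prop),
      IsReversalSequence D α' c' E' ∧ (∀ β < α', (c' β).length = 3) ∧ E' α' = E α := by
  obtain ⟨c₀, h10, h20⟩ := to_fam hD h
  obtain ⟨ι, _, _, c₁, h1, h11⟩ := shrink_fam h10
  have h2 : E α = Arc D (all c₁) := by rw [h11, h20]
  obtain ⟨τ, _, _, t, h3, h4, _, h6⟩ := hM D hD ι c₁ h1 (max ℵ₀ #V) (le_max_left _ _) univ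
    (fun _ => ∅) 0 (by rw [mk_univ]; exact le_max_right _ _) (fun _ _ _ _ => mem_univ _)
    (fun j hj => absurd hj (Nat.not_lt_zero j)) (fun i hi => absurd hi (Nat.not_lt_zero i))
  obtain ⟨α', c', E', h7, h8, h9⟩ := of_fam hD h3 h4
  refine ⟨α', c', E', h7, h8, ?_⟩
  rw [h9, h2]
  congr 1
  funext e
  exact h6 e ⟨fun _ _ => mem_univ _, fun j hj => absurd hj (Nat.not_lt_zero j)⟩

end Pool.Agent.Q179.CR
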