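import Pool.Agent.Q179.CR.Stm

/-!
# Hulls and many disjoint members
-/

set_option autoImplicit false

namespace Pool.Agent.Q179.CR

open Set Cardinal

universe u

theorem iUnion_le_aux {V ι : Type u} {f : ι → Set V} {μ : Cardinal.{u}} (hμ : ℵ₀ ≤ μ)
    (h1 : #ι ≤ μ) (h2 : ∀ i, #(f i) ≤ μ) : #(⋃ i, f i) ≤ μ := by
  refine (mk_iUnion_le f).trans ?_
  calc #ι * ⨆ i, #(f i) ≤ μ * μ := mul_le_mul' h1 (ciSup_le' h2)
    _ = μ := mul_eq_self hμ

theorem finset_le_aux {V : Type u} (s : Finset V) {μ : Cardinal.{u}} (hμ : ℵ₀ ≤ μ) :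
    #(↑s : Set V) ≤ μ :=
  (le_aleph0_iff_set_countable.2 (Finset.countable_toSet s)).trans hμ

theorem t_HULL : S_HULL.{u} := by
  classical
  intro V Y f μ hμ hf hfY Z₀ hZ₀Y hZ₀
  let step : Set V → Set V := fun Z => Z ∪ ⋃ S : {S : Finset V // (↑S : Set V) ⊆ Z}, f S.1
  have hstepμ : ∀ Z : Set V, #Z ≤ μ → #(step Z) ≤ μ := by
    intro Z hZ
    refine (mk_union_le _ _).trans (add_le_of_le hμ hZ ?_)
    have h1 : #{S : Finset V // (↑S : Set V) ⊆ Z} ≤ μ := by
      have h2 : #{S : Finset V // (↑S : Set V) ⊆ Z} ≤ #(Finset Z) := by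
        refine mk_le_of_injective (f := fun S => S.1.subtype (· ∈ Z)) ?_
        intro S T hST
        apply Subtype.ext
        ext x
        constructor
        · intro hx
          have h3 : (⟨x, S.2 hx⟩ : Z) ∈ S.1.subtype (· ∈ Z) := by simpa using hx
          have hST' : S.1.subtype (· ∈ Z) = T.1.subtype (· ∈ Z) := hST
          rw [hST'] at h3
          simpa using h3
        · intro hx
          have h3 : (⟨x, T.2 hx⟩ : Z) ∈ T.1.subtype (· ∈ Z) := by simpa using hx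
          have hST' : S.1.subtype (· ∈ Z) = T.1.subtype (· ∈ Z) := hST
          rw [← hST'] at h3
          simpa using h3
      refine h2.trans ?_
      rcases finite_or_infinite Z with h | h
      · exact mk_le_aleph0.trans hμ
      · rw [mk_finset_of_infinite]; exact hZ
    refine (mk_iUnion_le _).trans ?_
    calc _ ≤ μ * μ := mul_le_mul' h1 (ciSup_le' fun S => hf _)
      _ = μ := mul_eq_self hμ
  have hstepY : ∀ Z : Set V, Z ⊆ Y → step Z ⊆ Y := by
    intro Z hZ
    refine union_subset hZ (iUnion_subset fun S => hfY _ (S.2.trans hZ))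
  let Zn : ℕ → Set V := fun n => step^[n] Z₀
  have hZn : ∀ n, Zn (n + 1) = step (Zn n) := fun n => Function.iterate_succ_apply' _ _ _
  have hmono : Monotone Zn := by
    refine monotone_nat_of_le_succ fun n => ?_
    rw [hZn]
    exact subset_union_left
  refine ⟨⋃ n, Zn n, subset_iUnion_of_subset 0 subset_rfl, ?_, ?_, ?_⟩
  · refine iUnion_subset fun n => ?_
    induction n with
    | zero => exact hZ₀Y
    | succ n ih => rw [hZn]; exact hstepY _ ih
  · have h1 : ∀ n, #(Zn n) ≤ μ := by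
      intro n
      induction n with
      | zero => exact hZ₀
      | succ n ih => rw [hZn]; exact hstepμ _ ih
    have h2 : (⋃ n, Zn n) = ⋃ n : ULift.{u} ℕ, Zn n.down := by
      ext x; simp
    rw [h2]
    refine (mk_iUnion_le _).trans ?_
    calc _ ≤ μ * μ := mul_le_mul' (mk_le_aleph0.trans hμ) (ciSup_le' fun n => h1 _)
      _ = μ := mul_eq_self hμ
  · intro S hS
    have h1 : ∃ n, (↑S : Set V) ⊆ Zn n := by
      classical
      induction S using Finset.induction_on with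
      | empty => exact ⟨0, by simp⟩
      | insert a S _ ih =>
        rw [Finset.coe_insert, insert_subset_iff] at hS
        obtain ⟨n, hn⟩ := ih hS.2
        obtain ⟨m, hm⟩ := mem_iUnion.1 hS.1
        refine ⟨max n m, ?_⟩
        rw [Finset.coe_insert, insert_subset_iff]
        exact ⟨hmono (le_max_right _ _) hm, hn.trans (hmono (le_max_left _ _))⟩
    obtain ⟨n, hn⟩ := h1
    refine Subset.trans ?_ (subset_iUnion Zn (n + 1))
    rw [hZn]
    exact Subset.trans (subset_iUnion (fun S : {S : Finset V // (↑S : Set V) ⊆ Zn n} => f S.1)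
      ⟨S, hn⟩) subset_union_right

theorem t_MANY : S_MANY.{u} := by
  classical
  intro V 𝓕 μ hμ h
  by_cases h0 : ∅ ∈ 𝓕
  · exact ⟨∅, by simp, by simp, fun U _ => ⟨∅, h0, by simp, by simp⟩⟩
  obtain ⟨𝓜, _, hmax⟩ : ∃ 𝓜 : Set (Finset V), True ∧ Maximal
      (fun 𝓜 : Set (Finset V) => 𝓜 ⊆ 𝓕 ∧ 𝓜.PairwiseDisjoint id) 𝓜 := by
    obtain ⟨m, _, hm⟩ := zorn_subset_nonempty
      {𝓜 : Set (Finset V) | 𝓜 ⊆ 𝓕 ∧ 𝓜.PairwiseDisjoint id} (by
        intro C hC hchain _
        refine ⟨⋃₀ C, ⟨sUnion_subset fun s hs => (hC hs).1, ?_⟩, fun s hs => subset_sUnion_of_mem hs⟩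
        intro a ⟨s, hs, ha⟩ b ⟨t, ht, hb⟩ hab
        rcases hchain.total hs ht with h1 | h1
        · exact (hC ht).2 (h1 ha) hb hab
        · exact (hC hs).2 ha (h1 hb) hab) ∅ ⟨empty_subset _, by simp⟩
    exact ⟨m, trivial, hm⟩
  have hbig : μ < #𝓜 := by
    by_contra hle
    push Not at hle
    have hU : #(⋃ s : 𝓜, (↑s.1 : Set V)) ≤ μ := by
      exact iUnion_le_aux hμ hle fun s => finset_le_aux s.1 hμ
    obtain ⟨s, hs, hd⟩ := h _ hU
    have hsM : s ∉ 𝓜 := by
      intro hs'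
      have hne : s.Nonempty := Finset.nonempty_iff_ne_empty.2 fun e => h0 (e ▸ hs)
      obtain ⟨x, hx⟩ := hne
      exact Set.disjoint_left.1 hd (Finset.mem_coe.2 hx) (mem_iUnion.2 ⟨⟨s, hs'⟩, hx⟩)
    have h1 : insert s 𝓜 ⊆ 𝓕 ∧ (insert s 𝓜).PairwiseDisjoint id := by
      refine ⟨insert_subset hs hmax.1.1, hmax.1.2.insert fun t ht _ => ?_⟩
      have h9 : Disjoint s t := Finset.disjoint_left.2 fun x hx hxt =>
        Set.disjoint_left.1 hd (Finset.mem_coe.2 hx)
          (mem_iUnion.2 ⟨⟨t, ht⟩, Finset.mem_coe.2 hxt⟩)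
      exact h9
    exact hsM (hmax.2 h1 (subset_insert _ _) (mem_insert _ _))
  obtain ⟨𝓜', hsub, hcard⟩ := le_mk_iff_exists_subset.1 hbig.le
  refine ⟨⋃ s : 𝓜', (↑s.1 : Set V), ?_, ?_, ?_⟩
  · exact iUnion_le_aux hμ hcard.le fun s => finset_le_aux s.1 hμ
  · intro v hv
    obtain ⟨s, hs⟩ := mem_iUnion.1 hv
    exact ⟨s.1, hmax.1.1 (hsub s.2), hs⟩
  · intro U hU
    by_contra hno
    push Not at hno
    have h1 : ∀ s : 𝓜', ∃ v, v ∈ s.1 ∧ v ∈ U := by
      intro s
      have h2 := hno s.1 (hmax.1.1 (hsub s.2)) (subset_iUnion (fun s : 𝓜' => (↑s.1 : Set V)) s)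
      rw [Set.not_disjoint_iff] at h2
      exact h2
    choose g hg1 hg2 using h1
    have h3 : #𝓜' ≤ #U := by
      refine mk_le_of_injective (f := fun s => (⟨g s, hg2 s⟩ : U)) ?_
      intro s t hst
      have h4 : g s = g t := congrArg Subtype.val hst
      apply Subtype.ext
      by_contra hne
      have h5 := hmax.1.2 (hsub s.2) (hsub t.2) hne
      exact Finset.disjoint_left.1 h5 (hg1 s) (h4 ▸ hg1 t)
    rw [hcard] at h3
    exact absurd h3 (not_le.2 hU)

end Pool.Agent.Q179.CR
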