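import Pool.Agent.Q179.CR.Enum

/-!
# The countable cell
-/

set_option autoImplicit false

namespace Pool.Agent.Q179.CR

open Set Cardinal

universe u v

theorem finite_pairs {V : Type u} {S : Set V} (hS : S.Finite) :
    {e : Sym2 V | ∀ v ∈ e, v ∈ S}.Finite := by
  refine ((hS.prod hS).image fun p : V × V => s(p.1, p.2)).subset ?_
  intro e he
  induction e using Sym2.inductionOn with
  | hf x y => exact ⟨(x, y), ⟨he x (Sym2.mem_mk_left x y), he y (Sym2.mem_mk_right x y)⟩, rfl⟩

theorem countable_pairs {V : Type u} {S : Set V} (hS : S.Countable) :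
    {e : Sym2 V | ∀ v ∈ e, v ∈ S}.Countable := by
  refine ((hS.prod hS).image fun p : V × V => s(p.1, p.2)).mono ?_
  intro e he
  induction e using Sym2.inductionOn with
  | hf x y => exact ⟨(x, y), ⟨he x (Sym2.mem_mk_left x y), he y (Sym2.mem_mk_right x y)⟩, rfl⟩

/-- the concatenation of the first blocks -/
def hist {V : Type u} (M : ℕ → List (List V)) : ℕ → List (List V)
  | 0 => []
  | n + 1 => hist M n ++ M n

theorem tot_hist {V : Type u} (M : ℕ → List (List V)) (n : ℕ) :
    tot (hist M n) = ∑ m ∈ Finset.range n, tot (M m) := by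
  induction n with
  | zero => rfl
  | succ n ih => rw [hist, tot_append, ih, Finset.sum_range_succ]

theorem Val_hist {V : Type u} {D : V → V → Prop} {M : ℕ → List (List V)}
    (h : ∀ n, Val D (∑ m ∈ Finset.range n, tot (M m)) (M n)) (n : ℕ) : Val D 0 (hist M n) := by
  induction n with
  | zero => trivial
  | succ n ih =>
    rw [hist, Val_append, zero_add, tot_hist]
    exact ⟨ih, h n⟩

theorem mem_hist {V : Type u} {M : ℕ → List (List V)} {n : ℕ} {C : List V}
    (h : C ∈ hist M n) : ∃ m, C ∈ M m := by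
  induction n with
  | zero => simp [hist] at h
  | succ n ih =>
    rw [hist, List.mem_append] at h
    rcases h with h | h
    · exact ih h
    · exact ⟨n, h⟩

theorem t_LEAF (hFin : S_FIN.{u}) (hConv : S_CONV.{u}) : S_LEAF.{u} := by
  classical
  intro V D hD ι _ _ c hF Y X k hY hCY hCX hR
  have hc : ∀ i, (c i).Nodup ∧ 3 ≤ (c i).length := fun i => ⟨(hF.2 i).1, (hF.2 i).2.1⟩
  have hN := fun i => Pool.Agent.Q95.CR.t_NODUP (c i) (hc i).1 (hc i).2
  let J : Set ι := {i | ∃ e ∈ medges (c i), ok Y X k e}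
  have hJok : ∀ i ∈ J, ∀ e ∈ medges (c i), ok Y X k e := by
    rintro i ⟨e₀, he₀, hok⟩ e he
    refine ⟨fun v hv => hCY i ⟨e₀, he₀, hok.1⟩ v ((hN i).2.2.1 e he v hv), fun j hj => ?_⟩
    by_contra hno
    push Not at hno
    obtain ⟨v, hv, hv'⟩ := hok.2 j hj
    exact hv' (hCX j hj i ⟨e, he, hno⟩ v ((hN i).2.2.1 e₀ he₀ v hv))
  have hJc : J.Countable := by
    refine ((countable_pairs hY).biUnion fun e _ => (hF.1 e).countable).mono ?_
    rintro i ⟨e, he, hok⟩
    exact mem_biUnion (x := e) hok.1 he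
  have hJcl : ∀ i ∈ J, ∀ j, (∃ e ∈ medges (c i), e ∈ medges (c j)) → j ∈ J := by
    rintro i hi j ⟨e, he, he'⟩
    exact ⟨e, he', hJok i hi e he⟩
  obtain ⟨L, hL1, hL2, hL3, hL4⟩ := t_ENUM D ι c hF J hJc hJcl
  obtain ⟨f, hf⟩ := countable_iff_exists_injOn.1 hY
  let Km : ℕ → Set V := fun m => {y | y ∈ Y ∧ f y < m}
  have hKm : ∀ m, (Km m).Finite := by
    intro m
    refine Set.Finite.of_finite_image (f := f) ((finite_lt_nat m).subset ?_) fun a ha b hb =>
      hf ha.1 hb.1
    rintro _ ⟨i, hi, rfl⟩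
    exact hi.2
  have hKmono : ∀ m n, m ≤ n → Km m ⊆ Km n := fun m n h y hy => ⟨hy.1, hy.2.trans_le h⟩
  let P : ℕ → ℕ → Prop := fun n m => ∀ i ∈ L n, ∀ e ∈ medges (c i), ∃ v ∈ e, v ∉ Km m
  have hP0 : ∀ n, P n 0 := by
    intro n i _ e _
    induction e using Sym2.inductionOn with
    | hf x y => exact ⟨x, Sym2.mem_mk_left x y, fun h => Nat.not_lt_zero _ h.2⟩
  let mm : ℕ → ℕ := fun n => Nat.findGreatest (P n) n
  have hmm1 : ∀ n, P n (mm n) := fun n => Nat.findGreatest_spec (m := 0) (Nat.zero_le n) (hP0 n)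
  have hmm2 : ∀ n m, m ≤ n → P n m → m ≤ mm n := fun n m h1 h2 => Nat.le_findGreatest h1 h2
  let M : ℕ → List (List V) := fun n => (L n).map c
  have hMok : ∀ n, ∀ C ∈ M n, ∀ e ∈ medges C, ok Y X k e := by
    intro n C hC e he
    obtain ⟨i, hi, rfl⟩ := List.mem_map.1 hC
    exact hJok i (hL2 n i hi) e he
  have hT : ∀ n, ∃ T : List (List V), Val D (∑ m ∈ Finset.range n, tot (M m)) T ∧
      tot T = tot (M n) ∧ ∀ C ∈ T, C.length = 3 ∧ ∀ e ∈ medges C, okK Y X k (Km (mm n)) e := by
    intro n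
    have h := hConv D Y X k (Km (mm n)) k (hFin D hD Y X k (Km (mm n)) (hKm _) hR k le_rfl) (M n)
      (hist M n) (Val_hist hL4 n) (fun C hC => by
        obtain ⟨m, hm⟩ := mem_hist hC
        exact hMok m C hm) (by rw [tot_hist]; exact hL4 n) (by
        intro C hC
        refine ⟨fun e he => ⟨hMok n C hC e he, ?_⟩, ?_⟩
        · obtain ⟨i, hi, rfl⟩ := List.mem_map.1 hC
          exact hmm1 n i hi e he
        · obtain ⟨i, hi, rfl⟩ := List.mem_map.1 hC
          have hne : c i ≠ [] := by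
            intro h0
            have := (hc i).2
            rw [h0] at this
            simp at this
          obtain ⟨v, hv⟩ := List.exists_mem_of_ne_nil _ hne
          obtain ⟨e, he, _⟩ := (hN i).2.2.2 v hv
          obtain ⟨w, hw, hw'⟩ := hmm1 n i hi e he
          exact ⟨w, (hN i).2.2.1 e he w hw, hw', fun j h1 h2 => absurd h1 (not_le.2 h2)⟩)
    rw [tot_hist] at h
    exact h
  choose T hT1 hT2 hT3 using hT
  have hTV : ∀ n, Val D (∑ m ∈ Finset.range n, tot (T m)) (T n) := by
    intro n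
    have : (∑ m ∈ Finset.range n, tot (T m)) = ∑ m ∈ Finset.range n, tot (M m) :=
      Finset.sum_congr rfl fun m _ => hT2 m
    rw [this]
    exact hT1 n
  have hTf : ∀ e, {n | ∃ C ∈ T n, e ∈ medges C}.Finite := by
    intro e
    by_cases hex : ∃ n, ∃ C ∈ T n, e ∈ medges C
    · obtain ⟨n₀, C₀, hC₀, he₀⟩ := hex
      have heY := ((hT3 n₀ C₀ hC₀).2 e he₀).1.1
      obtain ⟨B, hB⟩ : ∃ B, ∀ v ∈ e, v ∈ Km B := by
        clear he₀
        induction e using Sym2.inductionOn with
        | hf x y =>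
          refine ⟨max (f x) (f y) + 1, fun v hv => ⟨heY v hv, ?_⟩⟩
          rcases Sym2.mem_iff.1 hv with rfl | rfl
          · exact Nat.lt_succ_of_le (le_max_left _ _)
          · exact Nat.lt_succ_of_le (le_max_right _ _)
      have hfin2 : (⋃ e' ∈ {e' : Sym2 V | ∀ v ∈ e', v ∈ Km B}, ⋃ i ∈ {i | e' ∈ medges (c i)},
          {n | i ∈ L n}).Finite := by
        refine (finite_pairs (hKm B)).biUnion fun e' _ => (hF.1 e').biUnion fun i _ => ?_
        refine Set.Subsingleton.finite fun a ha b hb => ?_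
        obtain ⟨n, _, hn⟩ := hL1 i (hL2 a i ha)
        rw [hn a ha, hn b hb]
      refine ((finite_lt_nat B).union hfin2).subset ?_
      rintro n ⟨C, hC, heC⟩
      by_cases hnB : n < B
      · exact Or.inl hnB
      · right
        have h1 : ¬ P n B := by
          intro hPB
          have h2 := hmm2 n B (not_lt.1 hnB) hPB
          obtain ⟨v, hv, hv'⟩ := ((hT3 n C hC).2 e heC).2
          exact hv' (hKmono _ _ h2 (hB v hv))
        simp only [P] at h1
        push Not at h1
        obtain ⟨i, hi, e', he', h2⟩ := h1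
        exact mem_biUnion (x := e') h2 (mem_biUnion (x := i) he' hi)
    · have : {n | ∃ C ∈ T n, e ∈ medges C} = ∅ := by
        ext n
        simp only [mem_ofPred_eq, mem_empty_iff_false, iff_false]
        exact fun h => hex ⟨n, h⟩
      rw [this]
      exact finite_empty
  obtain ⟨τ, _, _, t, h1, h2, h3⟩ := t_FLAT D T hTV hTf
  refine ⟨τ, inferInstance, inferInstance, t, h1, fun i => ?_, fun i e he => ?_, fun e he => ?_⟩
  · obtain ⟨n, hn⟩ := h2 i
    exact (hT3 n _ hn).1
  · obtain ⟨n, hn⟩ := h2 i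
    exact ((hT3 n _ hn).2 e he).1
  · rw [h3]
    have hS : ∀ N, (∑ m ∈ Finset.range N, tot (M m) e) =
        (({j | (∃ m < N, j ∈ L m) ∧ e ∈ medges (c j)}.ncard : ℕ) : ZMod 2) := by
      intro N
      induction N with
      | zero => simp
      | succ N ih =>
        rw [Finset.sum_range_succ, ih, tot_eq_ncard hc _ (hL3 N), ← Nat.cast_add]
        congr 1
        have hf1 : {j | (∃ m < N, j ∈ L m) ∧ e ∈ medges (c j)}.Finite :=
          (hF.1 e).subset fun j hj => hj.2
        have hf2 : {j | j ∈ L N ∧ e ∈ medges (c j)}.Finite := (hF.1 e).subset fun j hj => hj.2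
        rw [← ncard_union_eq ?_ hf1 hf2]
        · congr 1
          ext j
          simp only [mem_union, mem_ofPred_eq]
          constructor
          · rintro (⟨⟨m, h4, h5⟩, h6⟩ | ⟨h5, h6⟩)
            · exact ⟨⟨m, Nat.lt_succ_of_lt h4, h5⟩, h6⟩
            · exact ⟨⟨N, Nat.lt_succ_self N, h5⟩, h6⟩
          · rintro ⟨⟨m, h4, h5⟩, h6⟩
            rcases Nat.lt_succ_iff_lt_or_eq.1 h4 with h4 | h4
            · exact Or.inl ⟨⟨m, h4, h5⟩, h6⟩
            · subst h4; exact Or.inr ⟨h5, h6⟩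
        · rw [Set.disjoint_left]
          rintro j ⟨⟨m, h4, h5⟩, _⟩ ⟨h6, _⟩
          obtain ⟨n, _, hn⟩ := hL1 j (hL2 _ j h5)
          have := (hn m h5).trans (hn N h6).symm
          omega
    have hbd : ∃ N, ∀ j, e ∈ medges (c j) → ∃ m < N, j ∈ L m := by
      have hg : ∀ j, e ∈ medges (c j) → ∃ m, j ∈ L m := fun j hj =>
        (hL1 j ⟨e, hj, he⟩).exists
      choose! g hg using hg
      obtain ⟨N, hN'⟩ := ((hF.1 e).image g).bddAbove
      exact ⟨N + 1, fun j hj => ⟨g j, Nat.lt_succ_of_le (hN' ⟨j, hj, rfl⟩), hg j hj⟩⟩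
    obtain ⟨N, hNb⟩ := hbd
    rw [finsum_eq_sum_of_support_subset (s := Finset.range N)]
    · rw [Finset.sum_congr rfl fun n _ => by rw [hT2 n], hS N]
      unfold all
      congr 2
      ext j
      simp only [mem_ofPred_eq]
      exact ⟨fun h => h.2, fun h => ⟨hNb j h, h⟩⟩
    · intro n hn
      rw [Finset.mem_coe, Finset.mem_range]
      by_contra hlt
      refine hn ?_
      show tot (T n) e = 0
      rw [hT2 n, tot_eq_ncard hc _ (hL3 n)]
      have : {j | j ∈ L n ∧ e ∈ medges (c j)} = ∅ := by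
        ext j
        simp only [mem_ofPred_eq, mem_empty_iff_false, iff_false]
        rintro ⟨h5, h6⟩
        obtain ⟨m, h7, h8⟩ := hNb j h6
        obtain ⟨n', _, hn'⟩ := hL1 j (hL2 _ j h5)
        have := (hn' m h8).trans (hn' n h5).symm
        omega
      rw [this]
      simp

end Pool.Agent.Q179.CR
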