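import Pool.Agent.Q179.CR.Stm

/-!
# All cells by induction on the cardinality
-/

set_option autoImplicit false

namespace Pool.Agent.Q179.CR

open Set Cardinal

universe u

theorem sym2_in {V : Type u} {Λ : Type u} [LinearOrder Λ] {Y' : Λ → Set V} (hm : Monotone Y')
    (T : Set Λ) (e : Sym2 V) (h : ∀ v ∈ e, ∃ η ∈ T, v ∈ Y' η) : ∃ η ∈ T, ∀ v ∈ e, v ∈ Y' η := by
  induction e using Sym2.inductionOn with
  | hf x y =>
    obtain ⟨a, ha, hx⟩ := h x (Sym2.mem_mk_left x y)
    obtain ⟨b, hb, hy⟩ := h y (Sym2.mem_mk_right x y)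
    rcases le_total a b with hab | hab
    · refine ⟨b, hb, fun v hv => ?_⟩
      rcases Sym2.mem_iff.1 hv with rfl | rfl
      · exact hm hab hx
      · exact hy
    · refine ⟨a, ha, fun v hv => ?_⟩
      rcases Sym2.mem_iff.1 hv with rfl | rfl
      · exact hx
      · exact hm hab hy

theorem t_MAIN (hL : S_LEAF.{u}) (hC : S_CHAIN.{u}) (hU : S_UNION.{u}) : S_MAIN.{u} := by
  intro V D hD ι _ _ c hF κ
  induction κ using WellFoundedLT.induction with
  | _ κ ih =>
    intro hκ Y X k hY hCY hCX hR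
    rcases hκ.eq_or_lt with h0 | h0
    · subst h0
      exact hL D hD ι c hF Y X k (by rw [← le_aleph0_iff_set_countable]; exact hY) hCY hCX hR
    · obtain ⟨Λ, _, _, Y', μ, h1, h2, h3, h4, h5⟩ := hC D ι c hF.1 Y X k κ h0 hY hCY hR
      have hBcl : ∀ η : Λ, Clos c (⋃ ξ : Iio η, Y' ξ) := by
        rintro η i ⟨e, he, he'⟩ v hv
        obtain ⟨ξ, hξ, h6⟩ := sym2_in h2 (Iio η) e fun v hv => by
          obtain ⟨ξ, hξ⟩ := mem_iUnion.1 (he' v hv)
          exact ⟨ξ.1, ξ.2, hξ⟩
        exact mem_iUnion.2 ⟨⟨ξ, hξ⟩, h4 ξ i ⟨e, he, h6⟩ v hv⟩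
      have hE : {e | ok Y X k e} =
          ⋃ η : Λ, {e | ok (Y' η) (upd X k (⋃ ξ : Iio η, Y' ξ)) (k + 1) e} := by
        ext e
        constructor
        · rintro ⟨h6, h7⟩
          obtain ⟨η₀, _, hη₀⟩ := sym2_in h2 univ e fun v hv => by
            have := h6 v hv
            rw [← h3] at this
            obtain ⟨ξ, hξ⟩ := mem_iUnion.1 this
            exact ⟨ξ, mem_univ _, hξ⟩
          obtain ⟨η, hη, hmin⟩ := (inferInstance : WellFoundedLT Λ).wf.has_min
            {η | ∀ v ∈ e, v ∈ Y' η} ⟨η₀, hη₀⟩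
          refine mem_iUnion.2 ⟨η, hη, fun j hj => ?_⟩
          rcases Nat.lt_succ_iff_lt_or_eq.1 hj with hj | hj
          · simp only [upd, hj.ne, if_false]
            exact h7 j hj
          · subst hj
            simp only [upd, if_true]
            by_contra hno
            push Not at hno
            obtain ⟨ξ, hξ, h8⟩ := sym2_in h2 (Iio η) e fun v hv => by
              obtain ⟨ξ, hξ⟩ := mem_iUnion.1 (hno v hv)
              exact ⟨ξ.1, ξ.2, hξ⟩
            exact hmin ξ h8 hξ
        · intro he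
          obtain ⟨η, h6, h7⟩ := mem_iUnion.1 he
          refine ⟨fun v hv => ?_, fun j hj => ?_⟩
          · rw [← h3]; exact mem_iUnion.2 ⟨η, h6 v hv⟩
          · have := h7 j (Nat.lt_succ_of_lt hj)
            simp only [upd, hj.ne, if_false] at this
            exact this
      have hdis : ∀ l m : Λ, l < m →
          Disjoint {e | ok (Y' l) (upd X k (⋃ ξ : Iio l, Y' ξ)) (k + 1) e}
            {e | ok (Y' m) (upd X k (⋃ ξ : Iio m, Y' ξ)) (k + 1) e} := by
        intro l m hlm
        rw [Set.disjoint_left]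
        rintro e ⟨h6, _⟩ ⟨_, h7⟩
        obtain ⟨v, hv, h8⟩ := h7 k (Nat.lt_succ_self k)
        simp only [upd, if_true] at h8
        exact h8 (mem_iUnion.2 ⟨⟨l, hlm⟩, h6 v hv⟩)
      rw [hE]
      refine hU D (all c) Λ _ (fun l m hlm => ?_) fun η => ?_
      · rcases lt_or_gt_of_ne hlm with h | h
        · exact hdis l m h
        · exact (hdis m l h).symm
      · refine ih (μ η) (h1 η).2.1 (h1 η).1 (Y' η) _ (k + 1) (h1 η).2.2 (h4 η) ?_ (h5 η)
        intro j hj
        rcases Nat.lt_succ_iff_lt_or_eq.1 hj with hj | hj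
        · simp only [upd, hj.ne, if_false]
          exact hCX j hj
        · subst hj
          simp only [upd, if_true]
          exact hBcl η

end Pool.Agent.Q179.CR
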