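import Pool.Agent.Q179.CR.Stm

/-!
# One step of the chain
-/

set_option autoImplicit false

namespace Pool.Agent.Q179.CR

open Set Cardinal

universe u

theorem finite_cyc {V : Type u} {ι : Type u} (c : ι → List V) (hLF : LF c) (S : Finset V) :
    {v | ∃ i, v ∈ c i ∧ ∃ e ∈ medges (c i), ∀ x ∈ e, x ∈ S}.Finite := by
  classical
  have h1 : ((↑S.sym2 : Set (Sym2 V))).Finite := Finset.finite_toSet _
  have h2 : (⋃ e ∈ (↑S.sym2 : Set (Sym2 V)), {i | e ∈ medges (c i)}).Finite :=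
    h1.biUnion fun e _ => hLF e
  have h3 : (⋃ i ∈ (⋃ e ∈ (↑S.sym2 : Set (Sym2 V)), {i | e ∈ medges (c i)}),
      {v | v ∈ c i}).Finite := h2.biUnion fun i _ => List.finite_toSet _
  refine h3.subset ?_
  rintro v ⟨i, hv, e, he, hx⟩
  refine mem_biUnion (x := i) ?_ hv
  refine mem_biUnion (x := e) ?_ he
  rw [Finset.mem_coe, Finset.mem_sym2_iff]
  exact hx

theorem t_STEP (hH : S_HULL.{u}) (hM : S_MANY.{u}) : S_STEP.{u} := by
  classical
  intro V D ι c hLF Y X k κ μ hμ hμκ hCY hR B hBY hB hsat f hf hfY Z₀ hZ₀Y hZ₀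
  let 𝓕 : ℕ → Finset V → Finset V → Set (Finset V) := fun i A W =>
    {s | ∃ φ : V → V, Copy D Y X k i A W φ ∧ (∀ w ∈ W, φ w ∉ B) ∧ s = W.image φ}
  let Cond : ℕ → Finset V → Finset V → Prop := fun i A W => A.Nonempty ∧
    ((i < k ∧ (↑A : Set V) ⊆ X i ∩ Y ∧ (↑W : Set V) ⊆ Y \ X i) ∨
      (i = k ∧ (↑A : Set V) ⊆ B ∧ (↑W : Set V) ⊆ Y \ B))
  have hmany : ∀ i A W, Cond i A W → ∀ U : Set V, #U ≤ μ →
      ∃ s ∈ 𝓕 i A W, Disjoint (↑s : Set V) U := by
    rintro i A W ⟨hA, h | h⟩ U hU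
    · obtain ⟨φ, h1, h2⟩ := hR i h.1 A W hA h.2.1 h.2.2 (U ∪ B)
        (((mk_union_le _ _).trans (add_le_of_le hμ hU hB)).trans_lt hμκ)
      refine ⟨W.image φ, ⟨φ, h1, fun w hw hb => h2 w hw (Or.inr hb), rfl⟩, ?_⟩
      rw [Set.disjoint_left]
      intro v hv hvU
      rw [Finset.mem_coe, Finset.mem_image] at hv
      obtain ⟨w, hw, rfl⟩ := hv
      exact h2 w hw (Or.inl hvU)
    · obtain ⟨rfl, h3, h4⟩ := h
      rcases W.eq_empty_or_nonempty with rfl | hW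
      · refine ⟨∅, ⟨id, ⟨by simp, by simp, by simp, by simp, by simp, by simp⟩, by simp, by simp⟩, ?_⟩
        simp
      · obtain ⟨φ, h1, h2⟩ := hsat A W hA hW h3 h4 (U ∪ B)
          ((mk_union_le _ _).trans (add_le_of_le hμ hU hB))
        refine ⟨W.image φ, ⟨φ, h1, fun w hw hb => h2 w hw (Or.inr hb), rfl⟩, ?_⟩
        rw [Set.disjoint_left]
        intro v hv hvU
        rw [Finset.mem_coe, Finset.mem_image] at hv
        obtain ⟨w, hw, rfl⟩ := hv
        exact h2 w hw (Or.inl hvU)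
  have hex : ∀ i A W, ∃ M : Set V, #M ≤ μ ∧ (∀ v ∈ M, ∃ s ∈ 𝓕 i A W, v ∈ s) ∧
      (Cond i A W → ∀ U : Set V, #U < μ → ∃ s ∈ 𝓕 i A W, (↑s : Set V) ⊆ M ∧
        Disjoint (↑s : Set V) U) := by
    intro i A W
    by_cases hc : Cond i A W
    · obtain ⟨M, h1, h2, h3⟩ := hM (𝓕 i A W) μ hμ (hmany i A W hc)
      exact ⟨M, h1, h2, fun _ => h3⟩
    · exact ⟨∅, by simp, by simp, fun h => absurd h hc⟩
  choose M hM1 hM2 hM3 using hex
  let f' : Finset V → Set V := fun S => (f S ∪ (Y ∩ {v | ∃ i, v ∈ c i ∧ ∃ e ∈ medges (c i),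
    ∀ x ∈ e, x ∈ S})) ∪ ⋃ p : ({A : Finset V // A ⊆ S} × {W : Finset V // W ⊆ S}) × ULift (Fin (k + 1)),
      M p.2.down.1 p.1.1.1 p.1.2.1
  have hfin : ∀ S : Finset V, Finite {A : Finset V // A ⊆ S} := by
    intro S
    have : {A : Finset V | A ⊆ S}.Finite := by
      have h2 : {A : Finset V | A ⊆ S} = ↑S.powerset := by
        ext A; simp
      rw [h2]; exact Finset.finite_toSet _
    exact this.to_subtype
  have hf'μ : ∀ S, #(f' S) ≤ μ := by
    intro S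
    refine (mk_union_le _ _).trans (add_le_of_le hμ ((mk_union_le _ _).trans
      (add_le_of_le hμ (hf S) ?_)) ?_)
    · refine (mk_le_mk_of_subset inter_subset_right).trans ?_
      exact (le_aleph0_iff_set_countable.2 (finite_cyc c hLF S).countable).trans hμ
    · haveI := hfin S
      refine (mk_iUnion_le _).trans ?_
      calc _ ≤ μ * μ := mul_le_mul' (mk_le_aleph0.trans hμ) (ciSup_le' fun p => hM1 _ _ _)
        _ = μ := mul_eq_self hμ
  have hf'Y : ∀ S, f' S ⊆ Y := by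
    intro S v hv
    rcases hv with (hv | hv) | hv
    · exact hfY S hv
    · exact hv.1
    · obtain ⟨p, hp⟩ := mem_iUnion.1 hv
      obtain ⟨s, ⟨φ, h1, _, rfl⟩, hs⟩ := hM2 _ _ _ v hp
      obtain ⟨w, hw, rfl⟩ := Finset.mem_image.1 hs
      exact h1.maps w hw
  obtain ⟨Z, hZ0, hZY, hZμ, hZf⟩ := hH Y f' μ hμ hf'μ (fun S _ => hf'Y S) (Z₀ ∪ B)
    (union_subset hZ₀Y hBY) ((mk_union_le _ _).trans (add_le_of_le hμ hZ₀ hB))
  refine ⟨Z, hZ0, hZY, hZμ, ?_, ?_, ?_⟩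
  · rintro i ⟨e, he, he'⟩ v hv
    have h1 : (↑e.toFinset : Set V) ⊆ Z := by
      intro x hx
      rw [Finset.mem_coe, Sym2.mem_toFinset] at hx
      exact he' x hx
    refine hZf e.toFinset h1 (Or.inl (Or.inr ⟨?_, i, hv, e, he, fun x hx => ?_⟩))
    · exact hCY i ⟨e, he, fun x hx => hZY (he' x hx)⟩ v hv
    · rw [Sym2.mem_toFinset]; exact hx
  · intro S hS v hv
    exact hZf S hS (Or.inl (Or.inl hv))
  · intro i hi A W hA hAX hWX U hU
    have hc : Cond i A W := by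
      refine ⟨hA, ?_⟩
      rcases Nat.lt_succ_iff_lt_or_eq.1 hi with h | h
      · left
        simp only [upd, h.ne, if_false] at hAX hWX
        exact ⟨h, fun x hx => ⟨(hAX hx).1, hZY (hAX hx).2⟩, fun x hx => ⟨hZY (hWX hx).1, (hWX hx).2⟩⟩
      · right
        subst h
        simp only [upd, if_true] at hAX hWX
        exact ⟨rfl, fun x hx => (hAX hx).1, fun x hx => ⟨hZY (hWX hx).1, (hWX hx).2⟩⟩
    obtain ⟨s, ⟨φ, h1, h2, rfl⟩, h3, h4⟩ := hM3 i A W hc U hU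
    have hMZ : M i A W ⊆ Z := by
      have h5 : (↑(A ∪ W) : Set V) ⊆ Z := by
        rw [Finset.coe_union]
        exact union_subset (fun x hx => (hAX hx).2) (fun x hx => (hWX hx).1)
      refine Subset.trans ?_ (hZf (A ∪ W) h5)
      intro v hv
      exact Or.inr (mem_iUnion.2 ⟨((⟨A, Finset.subset_union_left⟩, ⟨W, Finset.subset_union_right⟩),
        ⟨⟨i, hi⟩⟩), hv⟩)
    have h6 : ∀ w ∈ W, φ w ∈ (↑(W.image φ) : Set V) := fun w hw =>
      Finset.mem_coe.2 (Finset.mem_image_of_mem _ hw)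
    refine ⟨φ, ⟨h1.inj, fun w hw => hMZ (h3 (h6 w hw)), fun w hw j hj hj' => ?_,
      fun w hw j hj => ?_, h1.inner, h1.outer⟩, fun w hw => Set.disjoint_left.1 h4 (h6 w hw)⟩
    · rcases Nat.lt_succ_iff_lt_or_eq.1 hj' with h | h
      · simp only [upd, h.ne, if_false]
        exact h1.avoid w hw j hj h
      · subst h
        simp only [upd, if_true]
        exact h2 w hw
    · have h7 : j < k := lt_of_lt_of_le hj (Nat.lt_succ_iff.1 hi)
      simp only [upd, h7.ne, if_false]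
      exact h1.mem w hw j hj

end Pool.Agent.Q179.CR
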