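import Pool.Agent.Q179.CR.Defs

/-!
# Statements of the lemmas of the project CR

Paper proof (helper249, simplified by helper179) of: in every tournament each reversal sequence of
directed cycles can be replaced by a reversal sequence of 3-cycles with the same result.
-/

set_option autoImplicit false

namespace Pool.Agent.Q179.CR

open Set Cardinal

universe u v

/-- Rotation of a closed walk.  Proof: write `l = m₁ ++ a :: m₂` and take `m = m₂ ++ m₁`; the arcs
of `a :: m₂ ++ m₁` are a rotation of the arcs of `l` (use `parcs_append`). -/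
def S_ROT : Prop := ∀ {V : Type u} (l : List V) (a : V), a ∈ l →
  ∃ m : List V, (a :: m).Perm l ∧ (carcs (a :: m)).Perm (carcs l)

/-- A closed walk through at least three distinct vertices has distinct edges, none of them is a
loop. -/
def S_NODUP : Prop := ∀ {V : Type u} (l : List V), l.Nodup → 3 ≤ l.length →
  (medges l).Nodup ∧ (∀ e ∈ medges l, ¬ e.IsDiag) ∧ (∀ e ∈ medges l, ∀ v ∈ e, v ∈ l) ∧
    ∀ v ∈ l, ∃ e ∈ medges l, v ∈ e

/-- Splitting a directed cycle `w P v Q` by the chord `w v`.  Let `G₁ = w P v` and `G₂ = w v Q`.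
Proof: the edges of the path `w P v` together with `s(v, w)` are the edges of `G₁`, the edges of
the path `v Q w` together with `s(w, v)` are the edges of `G₂`, and the two paths together give the
edges of the cycle (`parcs_append`); the chord is counted twice, which is `0` modulo 2.  If `v w` is
an arc then `G₁` is directed; after its reversal `w v` is an arc and the path `v Q w` is unchanged,
since its edges are no edges of `G₁` (`S_NODUP` for the cycle, and the chord is not an edge of the
cycle since `P` and `Q` are not empty).  The other case is the same with the roles exchanged. -/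
def S_SPLIT : Prop := ∀ {V : Type u} (D : V → V → Prop), IsTour D →
  ∀ (F : Sym2 V → ZMod 2) (w v : V) (P Q : List V), P ≠ [] → Q ≠ [] →
    DC D F (w :: (P ++ v :: Q)) →
    ind (w :: (P ++ [v])) + ind (w :: v :: Q) = ind (w :: (P ++ v :: Q)) ∧
    (∀ e ∈ medges (w :: (P ++ [v])), e ∈ medges (w :: (P ++ v :: Q)) ∨ e = s(w, v)) ∧
    (∀ e ∈ medges (w :: v :: Q), e ∈ medges (w :: (P ++ v :: Q)) ∨ e = s(w, v)) ∧
    (Arc D F v w → DC D F (w :: (P ++ [v])) ∧
      DC D (F + ind (w :: (P ++ [v]))) (w :: v :: Q)) ∧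
    (Arc D F w v → DC D F (w :: v :: Q) ∧
      DC D (F + ind (w :: v :: Q)) (w :: (P ++ [v])))

/-- Transport of a sequence of reversals by an injective map.  Proof: induction on `H`; the map
`Sym2.map ψ` is injective on the pairs of members of `S`, so that
`ind (C.map ψ) s(ψ x, ψ y) = ind C s(x, y)` for `x, y ∈ S`, for every `C` with members in `S`
(`medges (C.map ψ)` is the image of `medges C`). -/
def S_TRANS : Prop := ∀ {V : Type u} (D : V → V → Prop) (S A : Set V) (ψ : V → V), InjOn ψ S →
  ∀ (H : List (List V)), (∀ C ∈ H, ∀ v ∈ C, v ∈ S) →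
    (∀ C ∈ H, ∀ e ∈ medges C, ∃ v ∈ e, v ∉ A) →
    ∀ F₁ F₂ : Sym2 V → ZMod 2,
      (∀ x ∈ S, ∀ y ∈ S, x ∉ A ∨ y ∉ A → (Arc D F₂ (ψ x) (ψ y) ↔ Arc D F₁ x y)) →
      (Val D F₁ H → Val D F₂ (H.map (List.map ψ))) ∧
      (∀ x ∈ S, ∀ y ∈ S, x ∉ A ∨ y ∉ A →
        (Arc D (F₂ + tot (H.map (List.map ψ))) (ψ x) (ψ y) ↔ Arc D (F₁ + tot H) x y)) ∧
      ∀ x ∈ S, ∀ y ∈ S, tot (H.map (List.map ψ)) s(ψ x, ψ y) = tot H s(x, y)

/-- Undoing a sequence of reversals.  Proof: induction on `H` (append the undoing of the first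
cycle at the end); `ind C.reverse = ind C`; a directed cycle is, after its reversal, directed in the
opposite direction. -/
def S_UNDO : Prop := ∀ {V : Type u} (D : V → V → Prop), IsTour D →
  ∀ (F : Sym2 V → ZMod 2) (H : List (List V)), Val D F H →
    Val D (F + tot H) (H.map List.reverse).reverse ∧
      tot (H.map List.reverse).reverse = tot H ∧
      ∀ C ∈ (H.map List.reverse).reverse, ∃ C' ∈ H, (∀ v, v ∈ C ↔ v ∈ C') ∧
        ∀ e, e ∈ medges C ↔ e ∈ medges C'

/-- Exchange.  The cycle `G` is directed in the state `F`, its copy `G.map ψ` is directed backwards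
in the state `F`; `ψ` fixes the members of `B`, moves the other members of `G` out of `G`, and at
least two members of `G` are in `B`, but no two consecutive ones.  Then both orientations can be
exchanged by a sequence of cycles each of which contains a moved vertex.
Proof: rotate `G` such that it begins in `B` (`S_ROT`); `G = x₁ P₁ x₂ P₂ ... xₘ Pₘ` with `xₜ ∈ B` and
non-empty lists `Pₜ` without members of `B`, and `m ≥ 2`.  Reverse one after the other the cycles
`Zₜ = xₜ Pₜ xₜ₊₁ (ψ Pₜ) reversed` (`xₘ₊₁ = x₁`): these are directed cycles with at least four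
distinct vertices, they have no common edges (the edges of `G` are distinct and those of `G.map ψ`
are distinct and contain a moved vertex), and the sum of their `ind` is `ind G + ind (G.map ψ)`.
For the induction state the same for paths `x R` with `x ∈ B`, last member in `B`. -/
def S_EXCH : Prop := ∀ {V : Type u} (D : V → V → Prop), IsTour D →
  ∀ (F : Sym2 V → ZMod 2) (B : Set V) (ψ : V → V) (G : List V), DC D F G →
    (∀ p ∈ carcs G, Arc D F (ψ p.2) (ψ p.1)) → (∀ x ∈ G, x ∈ B → ψ x = x) →
    (∀ x ∈ G, x ∉ B → ψ x ∉ G) → (∀ x ∈ G, ∀ y ∈ G, ψ x = ψ y → x = y) →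
    (∀ e ∈ medges G, ∃ v ∈ e, v ∉ B) → (∃ a ∈ G, ∃ b ∈ G, a ≠ b ∧ a ∈ B ∧ b ∈ B) →
    ∃ Z : List (List V), Val D F Z ∧ tot Z = ind G + ind (G.map ψ) ∧
      ∀ C ∈ Z, (∀ e ∈ medges C, e ∈ medges G ∨ e ∈ medges (G.map ψ)) ∧
        ∃ x ∈ G, x ∉ B ∧ ψ x ∈ C

/-- Replacing the cycles of a list one after the other. Proof: induction on `L` with
`H ++ [C]` in place of `H`. -/
def S_CONV : Prop := ∀ {V : Type u} (D : V → V → Prop) (Y : Set V) (X : ℕ → Set V) (k : ℕ)
  (K : Set V) (i : ℕ), Good D Y X k K i → ∀ (L H : List (List V)), Val D 0 H →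
    (∀ C ∈ H, ∀ e ∈ medges C, ok Y X k e) → Val D (tot H) L →
    (∀ C ∈ L, (∀ e ∈ medges C, okK Y X k K e) ∧ ∃ w ∈ C, w ∉ K ∧ ∀ j, i ≤ j → j < k → w ∉ X j) →
    ∃ T : List (List V), Val D (tot H) T ∧ tot T = tot L ∧
      ∀ C ∈ T, C.length = 3 ∧ ∀ e ∈ medges C, okK Y X k K e

/-- The copy trick.  Let `S` be the finite set of all vertices of `H` and `G` (all in `Y`),
`A = S ∩ X i`, `W = S \ X i`.  Richness with `U = K ∪ S` gives a copy map `φ` of `W` over `A` with
values outside `K ∪ S` and outside all `X j`, `i ≤ j < k`.  Let `ψ = φ` on `W` and `ψ = id`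
elsewhere; it is injective on `S`.  In the state `tot H` the pairs `ψ x, ψ y` (`x, y ∈ S` not both in
`A`) are as in `D`, since no cycle of `H` contains a new vertex, so `ψ H` is valid in the state
`tot H` (`S_TRANS` with `F₁ = 0`, `F₂ = tot H`), and then `ψ G` is directed.  After these the cycle
`G` is still directed and `ψ G` is directed backwards: `S_EXCH` (with `B = X i`) gives a sequence `Z`
with `tot Z = ind G + ind (ψ G)`.  At last undo `ψ H` (`S_UNDO`, `Val_congr`).  The list
`L = ψ H ++ [ψ G] ++ Z ++ undo` is valid in the state `tot H`, `tot L = ind G`, its pairs are pairs of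
the cell which are not inside `K` (each of them is an edge of `G` or contains a new vertex; for `j < i`
use `Copy.mem`), and each of its cycles contains a new vertex (a cycle without edges inside `X i` has
a vertex outside `X i`).  Now apply `S_CONV`. -/
def S_COPY : Prop := ∀ {V : Type u} (D : V → V → Prop), IsTour D →
  ∀ (Y : Set V) (X : ℕ → Set V) (k : ℕ) (K : Set V) (i : ℕ), K.Finite → Rich D Y X k ℵ₀ → i < k →
    Good D Y X k K i → ∀ (H : List (List V)) (G : List V), Val D 0 H →
      (∀ C ∈ H, ∀ e ∈ medges C, ok Y X k e) → DC D (tot H) G →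
      (∀ e ∈ medges G, okK Y X k K e) → (∃ a ∈ G, ∃ b ∈ G, a ≠ b ∧ a ∈ X i ∧ b ∈ X i) →
      Red D Y X k K H G

/-- The finite lemma.  Strong induction on `i`, then induction on the length of `G`.  If `G` has
length 3 take `T = [G]`.  Otherwise rotate such that `G = w ...` with the given `w`.  If for some
vertex `v` of `G` which is not a neighbour of `w` the pair `s(w, v)` satisfies `okK`, split `G` by
this chord (`S_SPLIT`) and apply the induction hypothesis to both pieces (they contain `w`), with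
the history `H` and `H ++ [first piece]`.  Otherwise take any `v` in `G` not a neighbour of `w`:
`w, v ∈ Y`, `w ∉ K`, hence `w, v ∈ X j` for some `j < k`, and `j < i` by the choice of `w`; now
`S_COPY` for `j` applies, as `Good ... j` holds by induction. -/
def S_FIN : Prop := ∀ {V : Type u} (D : V → V → Prop), IsTour D →
  ∀ (Y : Set V) (X : ℕ → Set V) (k : ℕ) (K : Set V), K.Finite → Rich D Y X k ℵ₀ →
    ∀ i ≤ k, Good D Y X k K i

/-- Enumeration in blocks.  Proof: say that `j` is a parent of `i` if `j < i`, and `c j`, `c i` have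
a common edge.  Each `i` has finitely many parents (`LF` and finitely many edges); as the order is
well-founded and the number of parents is finite, each `i` has finitely many ancestors (strong
induction on `i`: the ancestors of `i` are the parents and their ancestors).  Let
`f : ι → ℕ` be injective on `J`, `B n` the finite set of all `i ∈ J` with `f i < n` and all their
ancestors (all in `J` by the closure property), and `L n` the increasing list of `B (n+1) \ B n`.
Validity: for `i` in `L n` and an edge `e` of `c i`, the members before `i` in the concatenation of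
the lists which contain `e` are exactly the `j < i` with `e ∈ medges (c j)`: such a `j` is a parent of
`i`, hence in `B (n+1)`, and before `i`; if `j > i` contains `e` and is in `B m`, `m ≤ n`, then `i` is a
parent of `j`, so `i ∈ B m`, which is false. -/
def S_ENUM : Prop := ∀ {V : Type u} (D : V → V → Prop) (ι : Type v) [LinearOrder ι]
  [WellFoundedLT ι] (c : ι → List V), Fam D c → ∀ J : Set ι, J.Countable →
    (∀ i ∈ J, ∀ j, (∃ e ∈ medges (c i), e ∈ medges (c j)) → j ∈ J) →
    ∃ L : ℕ → List ι, (∀ i ∈ J, ∃! n, i ∈ L n) ∧ (∀ n, ∀ i ∈ L n, i ∈ J) ∧ (∀ n, (L n).Nodup) ∧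
      ∀ n, Val D (∑ m ∈ Finset.range n, tot ((L m).map c)) ((L n).map c)

/-- From lists of 3-cycles to a reversal sequence.  Proof: the index set is
`Σₗ n : ℕ, Fin (T n).length` (lifted to the universe `u`) with the lexicographic order, which is a
well-order; `t (n, i)` is the `i`-th member of `T n`. -/
def S_FLAT : Prop := ∀ {V : Type u} (D : V → V → Prop) (T : ℕ → List (List V)),
  (∀ n, Val D (∑ m ∈ Finset.range n, tot (T m)) (T n)) →
  (∀ e, {n | ∃ C ∈ T n, e ∈ medges C}.Finite) →
  ∃ (τ : Type u) (_ : LinearOrder τ) (_ : WellFoundedLT τ) (t : τ → List V),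
    Fam D t ∧ (∀ i, ∃ n, t i ∈ T n) ∧ ∀ e, all t e = ∑ᶠ n, tot (T n) e

/-- The countable cell.  Proof: let `J` be the set of all `i` such that `c i` has an edge `e` with
`ok Y X k e`; by `Clos` all edges of `c i`, `i ∈ J`, are then pairs of the cell, and `J` is countable,
since the pairs of `Y` are countably many and each of them is in finitely many cycles.  `S_ENUM`
gives `L`.  Let `f` be injective on `Y` with values in `ℕ`, and let `K n` be the set of all `y ∈ Y` with
`f y < m` for the largest `m ≤ n` for which no cycle of the block `L n` has an edge inside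
`{y ∈ Y | f y < m}` (`m = 0` is possible).  By `S_FIN` with `i = k` and `S_CONV` (each cycle of the
block has an edge which is not inside `K n`, hence a vertex outside `K n`) the block `(L n).map c`
can be replaced in the state `∑ m < n, tot ((L m).map c)` by a list `T n` of 3-cycles with
`tot (T n) = tot ((L n).map c)` and with pairs in the cell which are not inside `K n` (the history `H` is
the concatenation of the first `n` blocks).  A pair inside `{y | f y < m}` is used in `T n` only if
`n < m` or some cycle of `L n` has an edge inside this finite set, which happens finitely often.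
`S_FLAT` gives the reversal sequence, and
`all t e = ∑ᶠ n, tot (T n) e = ∑ᶠ n, tot ((L n).map c) e = all c e` for the pairs `e` of the cell. -/
def S_LEAF : Prop := ∀ {V : Type u} (D : V → V → Prop), IsTour D →
  ∀ (ι : Type u) [LinearOrder ι] [WellFoundedLT ι] (c : ι → List V), Fam D c →
    ∀ (Y : Set V) (X : ℕ → Set V) (k : ℕ), Y.Countable → Clos c Y → (∀ j < k, Clos c (X j)) →
      Rich D Y X k ℵ₀ → Sol D {e | ok Y X k e} (all c)

/-- Union of cells.  Proof: well-order `Λ` and take the lexicographic sum of the index sets.  Each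
pair is used by one member of the sum only, thus `bef` and `all` of the sum agree on the pairs of
`E l` with those of the `l`-th member. -/
def S_UNION : Prop := ∀ {V : Type u} (D : V → V → Prop) (g : Sym2 V → ZMod 2) (Λ : Type u)
  (E : Λ → Set (Sym2 V)), (∀ l m, l ≠ m → Disjoint (E l) (E m)) → (∀ l, Sol D (E l) g) →
    Sol D (⋃ l, E l) g

/-- Closure of a set under a set-valued function of finite sets. Proof: iterate
`Z ↦ Z ∪ ⋃ {f S | S ⊆ Z finite}` and take the union; an infinite set has as many finite subsets as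
members. -/
def S_HULL : Prop := ∀ {V : Type u} (Y : Set V) (f : Finset V → Set V) (μ : Cardinal.{u}), ℵ₀ ≤ μ →
  (∀ S : Finset V, #(f S) ≤ μ) → (∀ S : Finset V, (↑S : Set V) ⊆ Y → f S ⊆ Y) →
  ∀ Z₀ : Set V, Z₀ ⊆ Y → #Z₀ ≤ μ →
    ∃ Z : Set V, Z₀ ⊆ Z ∧ Z ⊆ Y ∧ #Z ≤ μ ∧ ∀ S : Finset V, (↑S : Set V) ⊆ Z → f S ⊆ Z

/-- Many disjoint members.  Proof: if `∅ ∈ 𝓕` take `M = ∅`.  Otherwise a maximal family of pairwise
disjoint members of `𝓕` (Zorn) has more than `μ` members, since otherwise its union has at most `μ`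
members and there is a further disjoint member.  Take `μ` members and let `M` be their union.  A
set `U` with fewer than `μ` members meets fewer than `μ` of them. -/
def S_MANY : Prop := ∀ {V : Type u} (𝓕 : Set (Finset V)) (μ : Cardinal.{u}), ℵ₀ ≤ μ →
  (∀ U : Set V, #U ≤ μ → ∃ s ∈ 𝓕, Disjoint (↑s : Set V) U) →
  ∃ M : Set V, #M ≤ μ ∧ (∀ v ∈ M, ∃ s ∈ 𝓕, v ∈ s) ∧
    ∀ U : Set V, #U < μ → ∃ s ∈ 𝓕, (↑s : Set V) ⊆ M ∧ Disjoint (↑s : Set V) U

/-- Types.  Proof: `tp A W` consists of the numbers `m = A.card`, `n = W.card` and, by means of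
the enumerations `A.equivFin`, `W.equivFin`, of the relation `D` on `W`, between `W` and `A`, and the
membership of the members of `W` in `X j`, `j < k`. -/
def S_TYPE : Prop := ∀ {V : Type u} (D : V → V → Prop) (X : ℕ → Set V) (k : ℕ),
  ∃ (𝒯 : Type) (_ : Countable 𝒯) (tp : Finset V → Finset V → 𝒯), ∀ A W W' : Finset V,
    tp A W = tp A W' → ∃ φ : V → V, InjOn φ W ∧ φ '' (↑W : Set V) = (↑W' : Set V) ∧
      (∀ w ∈ W, ∀ j < k, (φ w ∈ X j ↔ w ∈ X j)) ∧
      (∀ w ∈ W, ∀ w' ∈ W, (D w w' ↔ D (φ w) (φ w'))) ∧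
      ∀ w ∈ W, ∀ a ∈ A, (D w a ↔ D (φ w) a)

/-- Enumeration of a set along the initial ordinal.  Proof: let `b = #U < κ`, and map the
`ζ` whose position is smaller than `b.ord` bijectively onto `U`. If `b ≤ #(Iio η)`, then these `ζ` are
below `η`; if `b ≤ ℵ₀`, then `Iio ζ` is finite. -/
def S_ENUMSET : Prop := ∀ {V : Type u} (κ : Cardinal.{u}), ℵ₀ ≤ κ → ∀ U : Set V, #U < κ →
  U.Nonempty → ∃ g : κ.ord.ToType → V, (∀ ζ, g ζ ∈ U) ∧ ∀ η : κ.ord.ToType,
    #U ≤ max ℵ₀ #(Iio η) → U ⊆ g '' {ζ | ζ < η ∨ (Iio ζ).Finite}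

/-- One step of the chain.  `B` is the old set, `Y'` the new one.
Proof: for `i ≤ k` and finite `A, W` let `𝓕 i A W` be the set of all `W.image φ` with
`Copy D Y X k i A W φ` and `φ w ∉ B` for `w ∈ W`.  If `i < k`, `A ≠ ∅`, `A ⊆ X i ∩ Y`,
`W ⊆ Y \ X i`, then the hypothesis of `S_MANY` holds by `Rich` (use `U ∪ B`, which has at most
`μ < κ` members); if `i = k`, `A ≠ ∅`, `A ⊆ B`, `W ⊆ Y \ B`, it holds by the last hypothesis (for
`W = ∅` it is trivial).  Let `M i A W` be the set from `S_MANY` in these cases and `∅` otherwise, and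
let `f' S` be the union of `f S`, of the vertices of all cycles `c i` which have an edge inside `S`,
intersected with `Y`, and of all `M i A W`, `i ≤ k`, `A, W ⊆ S`.  `S_HULL` for `f'` and `Z₀ ∪ B` gives
`Y'`. -/
def S_STEP : Prop := ∀ {V : Type u} (D : V → V → Prop) (ι : Type u) (c : ι → List V), LF c →
  ∀ (Y : Set V) (X : ℕ → Set V) (k : ℕ) (κ μ : Cardinal.{u}), ℵ₀ ≤ μ → μ < κ → Clos c Y →
    Rich D Y X k κ → ∀ (B : Set V), B ⊆ Y → #B ≤ μ →
    (∀ A W : Finset V, A.Nonempty → W.Nonempty → (↑A : Set V) ⊆ B → (↑W : Set V) ⊆ Y \ B →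
      ∀ U : Set V, #U ≤ μ → ∃ φ : V → V, Copy D Y X k k A W φ ∧ ∀ w ∈ W, φ w ∉ U) →
    ∀ (f : Finset V → Set V), (∀ S : Finset V, #(f S) ≤ μ) → (∀ S : Finset V, f S ⊆ Y) →
    ∀ Z₀ : Set V, Z₀ ⊆ Y → #Z₀ ≤ μ →
      ∃ Y' : Set V, Z₀ ∪ B ⊆ Y' ∧ Y' ⊆ Y ∧ #Y' ≤ μ ∧ Clos c Y' ∧
        (∀ S : Finset V, (↑S : Set V) ⊆ Y' → f S ⊆ Y') ∧ Rich D Y' (upd X k B) (k + 1) μ

/-- The chain.  Let `Λ = κ.ord.ToType` and `μ η = max ℵ₀ #(Iio η) < κ`.
For a finite set `A` and a type `t` (`S_TYPE`) say that `U` blocks `(A, t)` if every finite `W ⊆ Y`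
with `tp A W = t` meets `U`.  If `(A, t)` is blocked by a set with fewer than `κ` members, let
`U A t` be such a set of the smallest possible cardinality and `g A t` the function from
`S_ENUMSET` for it (if it is empty, nothing has to be done, there is no such `W`).  Let
`N η = {ζ | ζ ≤ η ∨ (Iio ζ).Finite}` (at most `μ η` members) and
`f η S = Y ∩ ⋃ {g A t '' N η | A ⊆ S}`.  By well-founded recursion let `Y' η` be a set given by
`S_STEP` for `B η = ⋃ ξ < η, Y' ξ`, `μ η`, `f η` and `Z₀ = {y η} ∩ Y`, where `y : Λ → V` has all members of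
`Y` in its range.  The hypothesis of `S_STEP`: `#(B η) ≤ μ η` since `#(Y' ξ) ≤ μ ξ ≤ μ η`.  Let `A ⊆ B η`
be finite and not empty, `W ⊆ Y \ B η`, `t = tp A W`.  There is `ξ₀ < η` with `A ⊆ Y' ξ₀` (the sets
`Y' ξ` increase, since `B ξ ⊆ Y' ξ`).  If `(A, t)` were blocked by a set with at most `μ η` members,
then `#(U A t) ≤ μ η`, so `U A t ⊆ g A t '' {ζ | ζ < η ∨ (Iio ζ).Finite}`, and all these values are in
`B η`: for `ζ < η` consider `Y' (max ζ ξ₀)`, for finite `Iio ζ` consider `Y' ξ₀`.  Hence `W` meets `B η`,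
a contradiction.  So for each `U` with at most `μ η` members there is a finite `W' ⊆ Y \ U` of the same
type, and `S_TYPE` gives the copy map. -/
def S_CHAIN : Prop := ∀ {V : Type u} (D : V → V → Prop) (ι : Type u) (c : ι → List V), LF c →
  ∀ (Y : Set V) (X : ℕ → Set V) (k : ℕ) (κ : Cardinal.{u}), ℵ₀ < κ → #Y ≤ κ → Clos c Y →
    Rich D Y X k κ →
    ∃ (Λ : Type u) (_ : LinearOrder Λ) (_ : WellFoundedLT Λ) (Y' : Λ → Set V)
      (μ : Λ → Cardinal.{u}), (∀ η, ℵ₀ ≤ μ η ∧ μ η < κ ∧ #(Y' η) ≤ μ η) ∧ Monotone Y' ∧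
      (⋃ η, Y' η) = Y ∧ (∀ η, Clos c (Y' η)) ∧
      ∀ η, Rich D (Y' η) (upd X k (⋃ ξ : Iio η, Y' ξ)) (k + 1) (μ η)

/-- All cells.  Induction on `κ`: `S_LEAF` if `κ = ℵ₀`.  Otherwise take the chain; the pairs of
the cell `(Y; X)` are the disjoint union of the pairs of the cells `(Y' η; X, B η)`,
`B η = ⋃ ξ < η, Y' ξ` (for a pair `e` of the cell take the smallest `η` with `e ⊆ Y' η`; then `e` is not
inside `B η`, since the `Y' ξ` increase), so that `S_UNION` and the induction hypothesis for `μ η`
apply; `B η` satisfies `Clos` as an increasing union. -/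
def S_MAIN : Prop := ∀ {V : Type u} (D : V → V → Prop), IsTour D →
  ∀ (ι : Type u) [LinearOrder ι] [WellFoundedLT ι] (c : ι → List V), Fam D c →
    ∀ (κ : Cardinal.{u}), ℵ₀ ≤ κ → ∀ (Y : Set V) (X : ℕ → Set V) (k : ℕ), #Y ≤ κ → Clos c Y →
      (∀ j < k, Clos c (X j)) → Rich D Y X k κ → Sol D {e | ok Y X k e} (all c)

end Pool.Agent.Q179.CR
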