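import Pool.Agent.Q179.CR.Stm

/-!
# Types, and enumeration of a set along the initial ordinal
-/

set_option autoImplicit false

namespace Pool.Agent.Q179.CR

open Set Cardinal

universe u

theorem t_TYPE : S_TYPE.{u} := by
  classical
  intro V D X k
  refine ⟨ℕ × Finset (ℕ × ℕ) × Finset (ℕ × ℕ) × Finset (ℕ × ℕ), inferInstance, fun A W =>
    (W.card,
      (Finset.range W.card ×ˢ Finset.range W.card).filter (fun p => ∃ (hs : p.1 < W.card)
        (ht : p.2 < W.card), D (W.equivFin.symm ⟨p.1, hs⟩).1 (W.equivFin.symm ⟨p.2, ht⟩).1),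
      (Finset.range W.card ×ˢ Finset.range A.card).filter (fun p => ∃ (hs : p.1 < W.card)
        (ht : p.2 < A.card), D (W.equivFin.symm ⟨p.1, hs⟩).1 (A.equivFin.symm ⟨p.2, ht⟩).1),
      (Finset.range W.card ×ˢ Finset.range k).filter (fun p => ∃ (hs : p.1 < W.card),
        (W.equivFin.symm ⟨p.1, hs⟩).1 ∈ X p.2)), ?_⟩
  intro A W W' h
  simp only [Prod.mk.injEq] at h
  obtain ⟨hc, h1, h2, h3⟩ := h
  have hmem : ∀ w ∈ W, ∃ s : Fin W.card, (W.equivFin.symm s).1 = w := fun w hw =>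
    ⟨W.equivFin ⟨w, hw⟩, by simp⟩
  have hmem' : ∀ w ∈ W', ∃ s : Fin W'.card, (W'.equivFin.symm s).1 = w := fun w hw =>
    ⟨W'.equivFin ⟨w, hw⟩, by simp⟩
  have hmemA : ∀ w ∈ A, ∃ s : Fin A.card, (A.equivFin.symm s).1 = w := fun w hw =>
    ⟨A.equivFin ⟨w, hw⟩, by simp⟩
  let φ : V → V := fun v => if hv : v ∈ W then (W'.equivFin.symm (Fin.cast hc (W.equivFin ⟨v, hv⟩))).1
    else v
  have hφ : ∀ s : Fin W.card, φ (W.equivFin.symm s).1 = (W'.equivFin.symm (Fin.cast hc s)).1 := by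
    intro s
    have hv : (W.equivFin.symm s).1 ∈ W := (W.equivFin.symm s).2
    simp only [φ, hv, dif_pos]
    simp
  refine ⟨φ, ?_, ?_, ?_, ?_, ?_⟩
  · intro v hv w hw hvw
    obtain ⟨s, rfl⟩ := hmem v hv
    obtain ⟨t, rfl⟩ := hmem w hw
    rw [hφ, hφ] at hvw
    have h4 := W'.equivFin.symm.injective (Subtype.ext hvw)
    have h5 : s = t := by
      apply Fin.ext
      have := congrArg Fin.val h4
      simpa using this
    rw [h5]
  · ext w
    constructor
    · rintro ⟨v, hv, rfl⟩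
      obtain ⟨s, rfl⟩ := hmem v hv
      rw [hφ]
      exact (W'.equivFin.symm (Fin.cast hc s)).2
    · intro hw
      obtain ⟨s, rfl⟩ := hmem' w hw
      refine ⟨(W.equivFin.symm (Fin.cast hc.symm s)).1, (W.equivFin.symm (Fin.cast hc.symm s)).2, ?_⟩
      rw [hφ]
      simp
  · intro w hw j hj
    obtain ⟨s, rfl⟩ := hmem w hw
    rw [hφ]
    have h4 := Finset.ext_iff.1 h3 (s.1, j)
    rw [Finset.mem_filter, Finset.mem_filter, Finset.mem_product, Finset.mem_product,
      Finset.mem_range, Finset.mem_range, Finset.mem_range] at h4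
    have hs' : s.1 < W'.card := hc ▸ s.2
    constructor
    · intro h5
      obtain ⟨_, _, h6⟩ := h4.2 ⟨⟨hs', hj⟩, hs', h5⟩
      exact h6
    · intro h5
      obtain ⟨_, _, h6⟩ := h4.1 ⟨⟨s.2, hj⟩, s.2, h5⟩
      exact h6
  · intro w hw w' hw'
    obtain ⟨s, rfl⟩ := hmem w hw
    obtain ⟨t, rfl⟩ := hmem w' hw'
    rw [hφ, hφ]
    have h4 := Finset.ext_iff.1 h1 (s.1, t.1)
    rw [Finset.mem_filter, Finset.mem_filter, Finset.mem_product, Finset.mem_product,
      Finset.mem_range, Finset.mem_range, Finset.mem_range, Finset.mem_range] at h4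
    have hs' : s.1 < W'.card := hc ▸ s.2
    have ht' : t.1 < W'.card := hc ▸ t.2
    constructor
    · intro h5
      obtain ⟨_, _, _, h6⟩ := h4.1 ⟨⟨s.2, t.2⟩, s.2, t.2, h5⟩
      exact h6
    · intro h5
      obtain ⟨_, _, _, h6⟩ := h4.2 ⟨⟨hs', ht'⟩, hs', ht', h5⟩
      exact h6
  · intro w hw a ha
    obtain ⟨s, rfl⟩ := hmem w hw
    obtain ⟨t, rfl⟩ := hmemA a ha
    rw [hφ]
    have h4 := Finset.ext_iff.1 h2 (s.1, t.1)
    rw [Finset.mem_filter, Finset.mem_filter, Finset.mem_product, Finset.mem_product,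
      Finset.mem_range, Finset.mem_range, Finset.mem_range] at h4
    have hs' : s.1 < W'.card := hc ▸ s.2
    constructor
    · intro h5
      obtain ⟨_, _, _, h6⟩ := h4.1 ⟨⟨s.2, t.2⟩, s.2, t.2, h5⟩
      exact h6
    · intro h5
      obtain ⟨_, _, _, h6⟩ := h4.2 ⟨⟨hs', t.2⟩, hs', t.2, h5⟩
      exact h6

theorem t_ENUMSET : S_ENUMSET.{u} := by
  classical
  intro V κ hκ U hU hne
  obtain ⟨u₀, hu₀⟩ := hne
  have hlt : (#U).ord < Ordinal.type (α := κ.ord.ToType) (· < ·) := by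
    rw [Ordinal.type_toType]; exact ord_lt_ord.2 hU
  obtain ⟨p, hp⟩ := Ordinal.typein_surj (α := κ.ord.ToType) (· < ·) hlt
  have hcard : ∀ ζ : κ.ord.ToType, (Ordinal.typein (α := κ.ord.ToType) (· < ·) ζ).card =
      #(Iio ζ) := fun ζ => rfl
  have hT : #U ≤ #(Iio p) := by
    rw [← hcard, hp, card_ord]
  obtain ⟨e⟩ := hT
  refine ⟨fun ζ => if h : ∃ x : U, (e x).1 = ζ then h.choose.1 else u₀, fun ζ => ?_, fun η hη => ?_⟩
  · dsimp only
    split_ifs with h
    · exact h.choose.2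
    · exact hu₀
  · intro x hx
    refine ⟨(e ⟨x, hx⟩).1, ?_, ?_⟩
    · have h1 : (e ⟨x, hx⟩).1 < p := (e ⟨x, hx⟩).2
      rcases le_total ℵ₀ #(Iio η) with h | h
      · rw [max_eq_right h, ← hcard η, ← ord_le, ← hp, Ordinal.typein_le_typein] at hη
        exact Or.inl (h1.trans_le (not_lt.1 hη))
      · rw [max_eq_left h] at hη
        right
        rw [← lt_aleph0_iff_set_finite, ← hcard]
        refine lt_of_lt_of_le ?_ hη
        rw [← lt_ord, ← hp]
        exact (Ordinal.typein_lt_typein _).2 h1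
    · have h : ∃ y : U, (e y).1 = (e ⟨x, hx⟩).1 := ⟨_, rfl⟩
      dsimp only
      rw [dif_pos h]
      have := h.choose_spec
      exact congrArg Subtype.val (e.injective (Subtype.ext this))

end Pool.Agent.Q179.CR
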